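import Pool.Agent.Run7.h462.BPD.Stm

/-! Piece SPC of project BPD: spacing of `(h/h')^d` and `k'/k`. -/

set_option autoImplicit false

namespace Run7.h462.BPD

open Finset

theorem card_fiber_le {α β : Type*} [DecidableEq β] (s : Finset α) (t : Finset β) (f : α → β)
    (hf : ∀ a ∈ s, f a ∈ t) (B : ℝ) (hB : ∀ b ∈ t, (#(s.filter (fun a => f a = b)) : ℝ) ≤ B) :
    (#s : ℝ) ≤ #t * B := by
  rw [Finset.card_eq_sum_card_fiberwise (f := f) (t := t) hf]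
  push_cast
  calc _ ≤ ∑ b ∈ t, B := sum_le_sum hB
    _ = _ := by rw [sum_const, nsmul_eq_mul]

/-- fractions with a given greatest common divisor are spaced -/
theorem frac_sep (N g a b a' b' : ℕ) (hg : 1 ≤ g) (hb : 0 < b) (hb' : 0 < b') (hbN : b ≤ 2 * N) (hbN' : b' ≤ 2 * N)
    (h1 : Nat.gcd a b = g) (h2 : Nat.gcd a' b' = g) (hne : (a, b) ≠ (a', b')) :
    (g : ℝ) ^ 2 / (4 * (N : ℝ) ^ 2) ≤ |(a : ℝ) / b - (a' : ℝ) / b'| := by
  have hb0 : (0 : ℝ) < b := by exact_mod_cast hb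
  have hb0' : (0 : ℝ) < b' := by exact_mod_cast hb'
  obtain ⟨u, hu⟩ := Nat.gcd_dvd_left a b
  obtain ⟨v, hv⟩ := Nat.gcd_dvd_right a b
  obtain ⟨u', hu'⟩ := Nat.gcd_dvd_left a' b'
  obtain ⟨v', hv'⟩ := Nat.gcd_dvd_right a' b'
  have hc : Nat.Coprime u v := by
    have := Nat.coprime_div_gcd_div_gcd (m := a) (n := b) (by omega)
    rwa [Nat.div_eq_of_eq_mul_right (by omega) hu, Nat.div_eq_of_eq_mul_right (by omega) hv] at this
  have hc' : Nat.Coprime u' v' := by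
    have := Nat.coprime_div_gcd_div_gcd (m := a') (n := b') (by omega)
    rwa [Nat.div_eq_of_eq_mul_right (by omega) hu', Nat.div_eq_of_eq_mul_right (by omega) hv'] at this
  rw [h1] at hu hv
  rw [h2] at hu' hv'
  have hz : (u : ℤ) * v' - u' * v ≠ 0 := by
    intro h0
    have h3 : u * v' = u' * v := by
      have : (u : ℤ) * v' = u' * v := by linarith
      exact_mod_cast this
    have hv0 : 0 < v := Nat.pos_of_ne_zero (fun h => by rw [h, mul_zero] at hv; omega)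
    have hv0' : 0 < v' := Nat.pos_of_ne_zero (fun h => by rw [h, mul_zero] at hv'; omega)
    have h4 : v ∣ v' := hc.symm.dvd_of_dvd_mul_left (by rw [h3]; exact dvd_mul_left _ _)
    have h5 : v' ∣ v := hc'.symm.dvd_of_dvd_mul_left (by rw [← h3]; exact dvd_mul_left _ _)
    have h6 : v = v' := Nat.dvd_antisymm h4 h5
    have h7 : u = u' := by
      rw [h6] at h3
      exact Nat.eq_of_mul_eq_mul_right hv0' h3
    apply hne
    rw [hu, hv, hu', hv', h6, h7]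
  have h3 : (1 : ℝ) ≤ |(u : ℝ) * v' - u' * v| := by
    have : (1 : ℤ) ≤ |(u : ℤ) * v' - u' * v| := Int.one_le_abs hz
    have h4 : ((1 : ℤ) : ℝ) ≤ ((|(u : ℤ) * v' - u' * v| : ℤ) : ℝ) := by exact_mod_cast this
    push_cast at h4
    exact h4
  have hbN0 : (b : ℝ) ≤ 2 * N := by exact_mod_cast hbN
  have hbN0' : (b' : ℝ) ≤ 2 * N := by exact_mod_cast hbN'
  have e1 : (a : ℝ) / b - (a' : ℝ) / b' = (g : ℝ) ^ 2 * ((u : ℝ) * v' - u' * v) / (b * b') := by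
    rw [div_sub_div _ _ hb0.ne' hb0'.ne']
    congr 1
    rw [hu, hv, hu', hv']
    push_cast
    ring
  rw [e1, abs_div, abs_of_pos (by positivity : (0 : ℝ) < b * b'), abs_mul, abs_of_nonneg (by positivity : (0 : ℝ) ≤ (g : ℝ) ^ 2)]
  have h4 : (b : ℝ) * b' ≤ 4 * (N : ℝ) ^ 2 := by
    calc (b : ℝ) * b' ≤ (2 * N) * (2 * N) := by gcongr
      _ = _ := by ring
  calc (g : ℝ) ^ 2 / (4 * (N : ℝ) ^ 2) ≤ (g : ℝ) ^ 2 / (b * b') := by gcongr
    _ = (g : ℝ) ^ 2 * 1 / (b * b') := by rw [mul_one]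
    _ ≤ _ := by gcongr

/-- the number of the fractions near a point -/
theorem farey (N g : ℕ) (hN : 1 ≤ N) (hg : 1 ≤ g) (x δ : ℝ) (hδ : 0 ≤ δ) (S : Finset (ℕ × ℕ))
    (hS : ∀ v ∈ S, 0 < v.2 ∧ v.2 ≤ 2 * N ∧ Nat.gcd v.1 v.2 = g ∧ |(v.1 : ℝ) / v.2 - x| ≤ δ) :
    (#S : ℝ) ≤ 1 + 8 * δ * (N : ℝ) ^ 2 / (g : ℝ) ^ 2 := by
  have hN0 : (0 : ℝ) < N := by exact_mod_cast hN
  have hg0 : (0 : ℝ) < g := by exact_mod_cast hg
  obtain ⟨q, hq⟩ : ∃ q : ℝ, q = (g : ℝ) ^ 2 / (4 * (N : ℝ) ^ 2) := ⟨_, rfl⟩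
  have hq0 : 0 < q := by rw [hq]; positivity
  have h1 : #S ≤ #(range (⌊2 * δ / q⌋₊ + 1)) := by
    refine Finset.card_le_card_of_injOn (fun v => ⌊((v.1 : ℝ) / v.2 - (x - δ)) / q⌋₊) (fun v hv => ?_) ?_
    · have h2 := (abs_le.1 (hS v hv).2.2.2)
      simp only [coe_range, Set.mem_Iio]
      have : ⌊((v.1 : ℝ) / v.2 - (x - δ)) / q⌋₊ ≤ ⌊2 * δ / q⌋₊ := by
        apply Nat.floor_le_floor
        gcongr
        linarith
      omega
    · intro v hv w hw hvw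
      simp only at hvw
      by_contra hne
      have hv' := hS v hv
      have hw' := hS w hw
      have h3 := frac_sep N g v.1 v.2 w.1 w.2 hg hv'.1 hw'.1 hv'.2.1 hw'.2.1 hv'.2.2.1 hw'.2.2.1 hne
      rw [← hq] at h3
      have hvp : 0 ≤ ((v.1 : ℝ) / v.2 - (x - δ)) / q := by
        have := (abs_le.1 hv'.2.2.2).1
        apply div_nonneg _ hq0.le
        linarith
      have hwp : 0 ≤ ((w.1 : ℝ) / w.2 - (x - δ)) / q := by
        have := (abs_le.1 hw'.2.2.2).1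
        apply div_nonneg _ hq0.le
        linarith
      have f1 := Nat.floor_le hvp
      have f2 := Nat.lt_floor_add_one (((v.1 : ℝ) / v.2 - (x - δ)) / q)
      have f3 := Nat.floor_le hwp
      have f4 := Nat.lt_floor_add_one (((w.1 : ℝ) / w.2 - (x - δ)) / q)
      rw [hvw] at f1 f2
      have f5 : |((v.1 : ℝ) / v.2 - (x - δ)) / q - ((w.1 : ℝ) / w.2 - (x - δ)) / q| < 1 := by
        rw [abs_lt]
        constructor <;> linarith
      have f6 : ((v.1 : ℝ) / v.2 - (x - δ)) / q - ((w.1 : ℝ) / w.2 - (x - δ)) / q = ((v.1 : ℝ) / v.2 - (w.1 : ℝ) / w.2) / q := by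
        ring
      rw [f6, abs_div, abs_of_pos hq0, div_lt_one hq0] at f5
      linarith
  rw [card_range] at h1
  have h2 : ((⌊2 * δ / q⌋₊ : ℕ) : ℝ) ≤ 2 * δ / q := Nat.floor_le (by positivity)
  have h3 : (#S : ℝ) ≤ ((⌊2 * δ / q⌋₊ : ℕ) : ℝ) + 1 := by exact_mod_cast h1
  have h4 : 2 * δ / q = 8 * δ * (N : ℝ) ^ 2 / (g : ℝ) ^ 2 := by
    rw [hq]; field_simp; ring
  linarith

/-- multiples in a dyadic interval -/
theorem card_mult_le {K m : ℕ} (hm : 0 < m) (S : Finset ℕ) (hS : S ⊆ Icc K (2 * K))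
    (hc : ∀ x ∈ S, m ∣ x) : (#S : ℝ) ≤ K / m + 1 := by
  have h1 : #S ≤ #(range (K / m + 1)) := by
    refine Finset.card_le_card_of_injOn (fun x => (x - K) / m) (fun x hx => ?_) ?_
    · have := mem_Icc.1 (hS hx)
      have h2 : (x - K) / m ≤ K / m := Nat.div_le_div_right (by omega)
      simp only [coe_range, Set.mem_Iio]
      omega
    · intro x hx y hy hxy
      have hx1 := mem_Icc.1 (hS hx)
      have hy1 := mem_Icc.1 (hS hy)
      obtain ⟨a, ha⟩ := hc x hx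
      obtain ⟨b, hb⟩ := hc y hy
      simp only at hxy
      have h3 : (x - K) ≡ (y - K) [MOD m] := by
        have h5 : (x - K) + K ≡ (y - K) + K [MOD m] := by
          rw [Nat.sub_add_cancel (by omega), Nat.sub_add_cancel (by omega), ha, hb]
          exact (Nat.modEq_zero_iff_dvd.2 (dvd_mul_right _ _)).trans (Nat.modEq_zero_iff_dvd.2 (dvd_mul_right _ _)).symm
        exact Nat.ModEq.add_right_cancel' K h5
      have h6 := Nat.div_add_mod (x - K) m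
      have h7 := Nat.div_add_mod (y - K) m
      rw [hxy, h3] at h6
      omega
  rw [card_range] at h1
  have h2 : ((K / m : ℕ) : ℝ) ≤ (K : ℝ) / m := Nat.cast_div_le
  calc (#S : ℝ) ≤ ((K / m + 1 : ℕ) : ℝ) := by exact_mod_cast h1
    _ ≤ _ := by push_cast; linarith

/-- pairs of multiples -/
theorem card_pairs_le {K m : ℕ} (hm : 0 < m) (hmK : m ≤ 2 * K) (S : Finset (ℕ × ℕ))
    (hS : S ⊆ Icc K (2 * K) ×ˢ Icc K (2 * K)) (hc : ∀ x ∈ S, m ∣ x.1 ∧ m ∣ x.2) :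
    (#S : ℝ) ≤ 9 * (K : ℝ) ^ 2 / (m : ℝ) ^ 2 := by
  have hm0 : (0 : ℝ) < m := by exact_mod_cast hm
  set T := (Icc K (2 * K)).filter (fun x => m ∣ x) with hT
  have h1 : S ⊆ T ×ˢ T := by
    intro x hx
    have h2 := hS hx
    have h3 := hc x hx
    rw [mem_product] at h2 ⊢
    rw [hT, mem_filter, mem_filter]
    exact ⟨⟨h2.1, h3.1⟩, ⟨h2.2, h3.2⟩⟩
  have h2 : (#T : ℝ) ≤ K / m + 1 := card_mult_le hm T (filter_subset _ _) (fun x hx => (mem_filter.1 hx).2)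
  have h3 : (1 : ℝ) ≤ 2 * K / m := by
    rw [le_div_iff₀ hm0, one_mul]
    exact_mod_cast hmK
  have h4 : (#T : ℝ) ≤ 3 * K / m := by
    have e : 3 * (K : ℝ) / m = K / m + 2 * K / m := by ring
    linarith
  calc (#S : ℝ) ≤ (#(T ×ˢ T) : ℝ) := by exact_mod_cast card_le_card h1
    _ = (#T : ℝ) * #T := by rw [card_product]; push_cast; ring
    _ ≤ (3 * K / m) * (3 * K / m) := by gcongr
    _ = _ := by ring

theorem pow_diff (d : ℕ) (hd : 1 ≤ d) (a b : ℝ) (ha : 1 / 2 ≤ a) (hb : 1 / 2 ≤ b) :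
    |a - b| ≤ 2 ^ (d - 1) * |a ^ d - b ^ d| := by
  wlog hab : b ≤ a with H
  · rw [abs_sub_comm a b, abs_sub_comm (a ^ d) (b ^ d)]
    exact H d hd b a hb ha (le_of_not_ge hab)
  obtain ⟨e, rfl⟩ : ∃ e, d = e + 1 := ⟨d - 1, by omega⟩
  have h1 : b ^ e ≤ a ^ e := pow_le_pow_left₀ (by linarith) hab e
  have h2 : b ^ (e + 1) ≤ a ^ (e + 1) := pow_le_pow_left₀ (by linarith) hab _
  rw [abs_of_nonneg (by linarith), abs_of_nonneg (by linarith), Nat.add_sub_cancel]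
  have h3 : (a - b) * a ^ e ≤ a ^ (e + 1) - b ^ (e + 1) := by
    rw [pow_succ, pow_succ]
    nlinarith
  have h4 : (1 / 2 : ℝ) ^ e ≤ a ^ e := pow_le_pow_left₀ (by norm_num) ha e
  have h5 : (2 : ℝ) ^ e * (1 / 2 : ℝ) ^ e = 1 := by rw [← mul_pow]; norm_num
  have h6 : (0 : ℝ) < 2 ^ e := by positivity
  calc a - b = (a - b) * (2 ^ e * (1 / 2 : ℝ) ^ e) := by rw [h5, mul_one]
    _ = 2 ^ e * ((a - b) * (1 / 2 : ℝ) ^ e) := by ring
    _ ≤ 2 ^ e * ((a - b) * a ^ e) := by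
        have : 0 ≤ a - b := by linarith
        gcongr
    _ ≤ _ := by gcongr

theorem spc (d : ℕ) (hd : 1 ≤ d) : S_SPC d := by
  classical
  refine ⟨288 * 2 ^ d, by
    have : (1 : ℝ) ≤ 2 ^ d := one_le_pow₀ (by norm_num)
    linarith, ?_⟩
  intro H K D hH hK hD
  have hH0 : (0 : ℝ) < H := by exact_mod_cast hH
  have hK0 : (0 : ℝ) < K := by exact_mod_cast hK
  have h2d : (1 : ℝ) ≤ 2 ^ d := one_le_pow₀ (by norm_num)
  set T := (((Ico H (2 * H) ×ˢ Ioc K (2 * K)) ×ˢ (Ico H (2 * H) ×ˢ Ioc K (2 * K))).filter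
    (fun v : (ℕ × ℕ) × (ℕ × ℕ) => |((v.1.1 : ℝ) / v.2.1) ^ d - (v.2.2 : ℝ) / v.1.2| ≤ D)) with hT
  have hTm : ∀ v ∈ T, (H ≤ v.1.1 ∧ v.1.1 < 2 * H) ∧ (K < v.1.2 ∧ v.1.2 ≤ 2 * K) ∧ (H ≤ v.2.1 ∧ v.2.1 < 2 * H) ∧
      (K < v.2.2 ∧ v.2.2 ≤ 2 * K) ∧ |((v.1.1 : ℝ) / v.2.1) ^ d - (v.2.2 : ℝ) / v.1.2| ≤ D := by
    intro v hv
    rw [hT, mem_filter, mem_product, mem_product, mem_product, mem_Ico, mem_Ioc, mem_Ico, mem_Ioc] at hv
    exact ⟨hv.1.1.1, hv.1.1.2, hv.1.2.1, hv.1.2.2, hv.2⟩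
  -- the partition
  have hmaps : ∀ v ∈ T, (Nat.gcd v.1.1 v.2.1, Nat.gcd v.2.2 v.1.2) ∈ Icc 1 (2 * H) ×ˢ Icc 1 (2 * K) := by
    intro v hv
    obtain ⟨h1, h2, h3, h4, -⟩ := hTm v hv
    rw [mem_product, mem_Icc, mem_Icc]
    refine ⟨⟨Nat.gcd_pos_of_pos_left _ (by omega), ?_⟩, ⟨Nat.gcd_pos_of_pos_left _ (by omega), ?_⟩⟩
    · exact (Nat.gcd_le_left _ (by omega)).trans h1.2.le
    · exact (Nat.gcd_le_left _ (by omega)).trans h4.2
  rw [Finset.card_eq_sum_card_fiberwise (f := fun v : (ℕ × ℕ) × (ℕ × ℕ) => (Nat.gcd v.1.1 v.2.1, Nat.gcd v.2.2 v.1.2))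
    (t := Icc 1 (2 * H) ×ˢ Icc 1 (2 * K)) hmaps]
  push_cast
  have hcell : ∀ b ∈ Icc 1 (2 * H) ×ˢ Icc 1 (2 * K),
      (#(T.filter (fun v : (ℕ × ℕ) × (ℕ × ℕ) => (Nat.gcd v.1.1 v.2.1, Nat.gcd v.2.2 v.1.2) = b)) : ℝ) ≤
        9 * H * K * (1 / (b.1 : ℝ) * (1 / (b.2 : ℝ))) +
          72 * 2 ^ d * (D * H ^ 2 * K ^ 2) * (1 / (b.1 : ℝ) ^ 2 * (1 / (b.2 : ℝ) ^ 2)) := by
    rintro ⟨g, l⟩ hb
    rw [mem_product, mem_Icc, mem_Icc] at hb
    obtain ⟨⟨hg1, hg2⟩, ⟨hl1, hl2⟩⟩ := hb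
    simp only at hg1 hg2 hl1 hl2 ⊢
    have hg0 : (0 : ℝ) < g := by exact_mod_cast hg1
    have hl0 : (0 : ℝ) < l := by exact_mod_cast hl1
    set Tb := T.filter (fun v : (ℕ × ℕ) × (ℕ × ℕ) => (Nat.gcd v.1.1 v.2.1, Nat.gcd v.2.2 v.1.2) = (g, l)) with hTb
    have hTbm : ∀ v ∈ Tb, v ∈ T ∧ Nat.gcd v.1.1 v.2.1 = g ∧ Nat.gcd v.2.2 v.1.2 = l := by
      intro v hv
      rw [hTb, mem_filter, Prod.mk.injEq] at hv
      exact hv
    rcases le_total ((H : ℝ) / g) ((K : ℝ) / l) with hc | hc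
    · -- fibres over `(h, h')`
      set Q := (Icc H (2 * H) ×ˢ Icc H (2 * H)).filter (fun x : ℕ × ℕ => g ∣ x.1 ∧ g ∣ x.2) with hQ
      have hQc : (#Q : ℝ) ≤ 9 * (H : ℝ) ^ 2 / (g : ℝ) ^ 2 :=
        card_pairs_le hg1 hg2 Q (filter_subset _ _) (fun x hx => (mem_filter.1 hx).2)
      have h1 := card_fiber_le Tb Q (fun v => (v.1.1, v.2.1)) (by
        intro v hv
        obtain ⟨hv1, hv2, hv3⟩ := hTbm v hv
        obtain ⟨h1, h2, h3, h4, -⟩ := hTm v hv1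
        rw [hQ, mem_filter, mem_product, mem_Icc, mem_Icc]
        refine ⟨⟨⟨h1.1, h1.2.le⟩, ⟨h3.1, h3.2.le⟩⟩, ?_, ?_⟩
        · rw [← hv2]; exact Nat.gcd_dvd_left _ _
        · rw [← hv2]; exact Nat.gcd_dvd_right _ _) (1 + 8 * D * (K : ℝ) ^ 2 / (l : ℝ) ^ 2) (by
        intro b _
        set Fb := Tb.filter (fun v : (ℕ × ℕ) × (ℕ × ℕ) => (v.1.1, v.2.1) = b) with hFb
        have hinj : #(Fb.image (fun v : (ℕ × ℕ) × (ℕ × ℕ) => (v.2.2, v.1.2))) = #Fb := by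
          apply card_image_of_injOn
          intro v hv w hw hvw
          rw [hFb] at hv hw
          simp only [coe_filter, Set.mem_ofPred_eq] at hv hw
          simp only [Prod.mk.injEq] at hvw
          have h3 := hv.2.trans hw.2.symm
          simp only [Prod.mk.injEq] at h3
          exact Prod.ext (Prod.ext h3.1 hvw.2) (Prod.ext h3.2 hvw.1)
        rw [← hinj]
        refine farey K l hK hl1 (((b.1 : ℝ) / b.2) ^ d) D hD _ ?_
        intro v hv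
        rw [mem_image] at hv
        obtain ⟨w, hw, rfl⟩ := hv
        rw [hFb, mem_filter] at hw
        obtain ⟨hw1, hw2⟩ := hw
        obtain ⟨hv1, hv2, hv3⟩ := hTbm w hw1
        obtain ⟨h1, h2, h3, h4, h5⟩ := hTm w hv1
        refine ⟨by simp only; omega, by simp only; omega, hv3, ?_⟩
        rw [← hw2]
        rw [abs_sub_comm]
        exact h5)
      refine h1.trans ?_
      calc (#Q : ℝ) * (1 + 8 * D * (K : ℝ) ^ 2 / (l : ℝ) ^ 2) ≤
          (9 * (H : ℝ) ^ 2 / (g : ℝ) ^ 2) * (1 + 8 * D * (K : ℝ) ^ 2 / (l : ℝ) ^ 2) := by gcongr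
        _ = 9 * ((H : ℝ) / g) * ((H : ℝ) / g) + 72 * (D * H ^ 2 * K ^ 2) * (1 / (g : ℝ) ^ 2 * (1 / (l : ℝ) ^ 2)) := by
            field_simp
            ring
        _ ≤ 9 * ((H : ℝ) / g) * ((K : ℝ) / l) + 72 * 2 ^ d * (D * H ^ 2 * K ^ 2) * (1 / (g : ℝ) ^ 2 * (1 / (l : ℝ) ^ 2)) := by
            have h3 : 0 ≤ (D * H ^ 2 * K ^ 2) * (1 / (g : ℝ) ^ 2 * (1 / (l : ℝ) ^ 2)) := by positivity
            have h4 : 9 * ((H : ℝ) / g) * ((H : ℝ) / g) ≤ 9 * ((H : ℝ) / g) * ((K : ℝ) / l) := by gcongr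
            nlinarith
        _ = _ := by ring
    · -- fibres over `(k', k)`
      set Q := (Icc K (2 * K) ×ˢ Icc K (2 * K)).filter (fun x : ℕ × ℕ => l ∣ x.1 ∧ l ∣ x.2) with hQ
      have hQc : (#Q : ℝ) ≤ 9 * (K : ℝ) ^ 2 / (l : ℝ) ^ 2 :=
        card_pairs_le hl1 hl2 Q (filter_subset _ _) (fun x hx => (mem_filter.1 hx).2)
      have h1 := card_fiber_le Tb Q (fun v => (v.2.2, v.1.2)) (by
        intro v hv
        obtain ⟨hv1, hv2, hv3⟩ := hTbm v hv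
        obtain ⟨h1, h2, h3, h4, -⟩ := hTm v hv1
        rw [hQ, mem_filter, mem_product, mem_Icc, mem_Icc]
        refine ⟨⟨⟨h4.1.le, h4.2⟩, ⟨h2.1.le, h2.2⟩⟩, ?_, ?_⟩
        · rw [← hv3]; exact Nat.gcd_dvd_left _ _
        · rw [← hv3]; exact Nat.gcd_dvd_right _ _) (1 + 8 * (2 ^ d * D) * (H : ℝ) ^ 2 / (g : ℝ) ^ 2) (by
        intro b _
        set Fb := Tb.filter (fun v : (ℕ × ℕ) × (ℕ × ℕ) => (v.2.2, v.1.2) = b) with hFb
        have hinj : #(Fb.image (fun v : (ℕ × ℕ) × (ℕ × ℕ) => (v.1.1, v.2.1))) = #Fb := by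
          apply card_image_of_injOn
          intro v hv w hw hvw
          rw [hFb] at hv hw
          simp only [coe_filter, Set.mem_ofPred_eq] at hv hw
          simp only [Prod.mk.injEq] at hvw
          have h3 := hv.2.trans hw.2.symm
          simp only [Prod.mk.injEq] at h3
          exact Prod.ext (Prod.ext hvw.1 h3.2) (Prod.ext hvw.2 h3.1)
        rw [← hinj]
        rcases Finset.eq_empty_or_nonempty Fb with hemp | ⟨w0, hw0⟩
        · rw [hemp, image_empty, card_empty]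
          push_cast
          positivity
        have hw0' := hw0
        rw [hFb, mem_filter] at hw0'
        obtain ⟨hw01, hw02⟩ := hw0'
        obtain ⟨h1, h2, h3, h4, h5⟩ := hTm w0 (hTbm w0 hw01).1
        refine farey H g hH hg1 ((w0.1.1 : ℝ) / w0.2.1) (2 ^ d * D) (by positivity) _ ?_
        intro v hv
        rw [mem_image] at hv
        obtain ⟨w, hw, rfl⟩ := hv
        rw [hFb, mem_filter] at hw
        obtain ⟨hw1, hw2⟩ := hw
        obtain ⟨hv1, hv2, hv3⟩ := hTbm w hw1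
        obtain ⟨g1, g2, g3, g4, g5⟩ := hTm w hv1
        refine ⟨by simp only; omega, by simp only; omega, hv2, ?_⟩
        have half : ∀ a b : ℕ, H ≤ a → b < 2 * H → H ≤ b → (1 : ℝ) / 2 ≤ (a : ℝ) / b := by
          intro a b ha hb hb2
          have hb0 : (0 : ℝ) < b := by exact_mod_cast (by omega : 0 < b)
          rw [div_le_div_iff₀ (by norm_num) hb0]
          have : b ≤ a * 2 := by omega
          have : (b : ℝ) ≤ a * 2 := by exact_mod_cast this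
          linarith
        have hp := pow_diff d hd ((w.1.1 : ℝ) / w.2.1) ((w0.1.1 : ℝ) / w0.2.1) (half _ _ g1.1 g3.2 g3.1)
          (half _ _ h1.1 h3.2 h3.1)
        refine hp.trans ?_
        have hbw : (w.2.2, w.1.2) = (w0.2.2, w0.1.2) := hw2.trans hw02.symm
        simp only [Prod.mk.injEq] at hbw
        rw [hbw.1, hbw.2] at g5
        have h6 : |((w.1.1 : ℝ) / w.2.1) ^ d - ((w0.1.1 : ℝ) / w0.2.1) ^ d| ≤ 2 * D := by
          have e : ((w.1.1 : ℝ) / w.2.1) ^ d - ((w0.1.1 : ℝ) / w0.2.1) ^ d =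
            (((w.1.1 : ℝ) / w.2.1) ^ d - (w0.2.2 : ℝ) / w0.1.2) - (((w0.1.1 : ℝ) / w0.2.1) ^ d - (w0.2.2 : ℝ) / w0.1.2) := by ring
          rw [e]
          refine (abs_sub _ _).trans ?_
          linarith
        calc (2 : ℝ) ^ (d - 1) * |((w.1.1 : ℝ) / w.2.1) ^ d - ((w0.1.1 : ℝ) / w0.2.1) ^ d| ≤ 2 ^ (d - 1) * (2 * D) := by gcongr
          _ = 2 ^ (d - 1 + 1) * D := by rw [pow_succ]; ring
          _ = 2 ^ d * D := by rw [Nat.sub_add_cancel hd])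
      refine h1.trans ?_
      calc (#Q : ℝ) * (1 + 8 * (2 ^ d * D) * (H : ℝ) ^ 2 / (g : ℝ) ^ 2) ≤
          (9 * (K : ℝ) ^ 2 / (l : ℝ) ^ 2) * (1 + 8 * (2 ^ d * D) * (H : ℝ) ^ 2 / (g : ℝ) ^ 2) := by gcongr
        _ = 9 * ((K : ℝ) / l) * ((K : ℝ) / l) + 72 * 2 ^ d * (D * H ^ 2 * K ^ 2) * (1 / (g : ℝ) ^ 2 * (1 / (l : ℝ) ^ 2)) := by
            field_simp
            ring
        _ ≤ 9 * ((H : ℝ) / g) * ((K : ℝ) / l) + 72 * 2 ^ d * (D * H ^ 2 * K ^ 2) * (1 / (g : ℝ) ^ 2 * (1 / (l : ℝ) ^ 2)) := by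
            have h4 : 9 * ((K : ℝ) / l) * ((K : ℝ) / l) ≤ 9 * ((H : ℝ) / g) * ((K : ℝ) / l) := by gcongr
            linarith
        _ = _ := by ring
  refine (sum_le_sum hcell).trans ?_
  rw [sum_add_distrib, ← mul_sum, ← mul_sum, sum_product, sum_product]
  simp only
  rw [← sum_mul_sum, ← sum_mul_sum]
  have hharm : ∀ N : ℕ, 1 ≤ N → ∑ g ∈ Icc 1 (2 * N), 1 / (g : ℝ) ≤ 2 * (1 + Real.log N) := by
    intro N hN
    have h := harmonic_le_one_add_log (2 * N)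
    have h2 : ((harmonic (2 * N) : ℚ) : ℝ) = ∑ m ∈ Icc 1 (2 * N), (1 : ℝ) / m := by
      rw [harmonic_eq_sum_Icc]
      push_cast
      apply Finset.sum_congr rfl
      intro m _
      rw [one_div]
    rw [h2] at h
    have hN0 : (0 : ℝ) < N := by exact_mod_cast hN
    have h3 : Real.log ((2 * N : ℕ) : ℝ) = Real.log 2 + Real.log N := by
      push_cast
      exact Real.log_mul (by norm_num) hN0.ne'
    rw [h3] at h
    have h4 := Real.log_two_lt_d9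
    have h5 : 0 ≤ Real.log N := Real.log_nonneg (by exact_mod_cast hN)
    linarith
  have hsq : ∀ N : ℕ, ∑ g ∈ Icc 1 N, 1 / (g : ℝ) ^ 2 ≤ 2 := by
    intro N
    have h5 := sum_Ioo_inv_sq_le (α := ℝ) 0 (N + 1)
    have h6 : ∑ g ∈ Icc 1 N, 1 / (g : ℝ) ^ 2 = ∑ g ∈ Ioo 0 (N + 1), ((g : ℝ) ^ 2)⁻¹ := by
      apply sum_congr
      · ext x
        rw [mem_Icc, mem_Ioo]
        omega
      · intro x _
        rw [one_div]
    rw [h6]
    norm_num at h5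
    exact h5
  have a1 := hharm H hH
  have a2 := hharm K hK
  have b1 := hsq (2 * H)
  have b2 := hsq (2 * K)
  have c1 : 0 ≤ Real.log H := Real.log_nonneg (by exact_mod_cast hH)
  have c2 : 0 ≤ Real.log K := Real.log_nonneg (by exact_mod_cast hK)
  have d1 : 9 * (H : ℝ) * K * ((∑ g ∈ Icc 1 (2 * H), 1 / (g : ℝ)) * ∑ l ∈ Icc 1 (2 * K), 1 / (l : ℝ)) ≤
      9 * H * K * ((2 * (1 + Real.log H)) * (2 * (1 + Real.log K))) := by
    have : 0 ≤ ∑ l ∈ Icc 1 (2 * K), 1 / (l : ℝ) := sum_nonneg fun _ _ => by positivity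
    gcongr
  have d2 : 72 * 2 ^ d * (D * (H : ℝ) ^ 2 * K ^ 2) * ((∑ g ∈ Icc 1 (2 * H), 1 / (g : ℝ) ^ 2) * ∑ l ∈ Icc 1 (2 * K), 1 / (l : ℝ) ^ 2) ≤
      72 * 2 ^ d * (D * H ^ 2 * K ^ 2) * (2 * 2) := by
    have : 0 ≤ ∑ l ∈ Icc 1 (2 * K), 1 / (l : ℝ) ^ 2 := sum_nonneg fun _ _ => by positivity
    gcongr
  refine (add_le_add d1 d2).trans ?_
  have e1 : 0 ≤ (H : ℝ) * K * ((1 + Real.log H) * (1 + Real.log K)) := by positivity
  have e2 : 9 * (H : ℝ) * K * ((2 * (1 + Real.log H)) * (2 * (1 + Real.log K))) =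
      36 * ((H : ℝ) * K * ((1 + Real.log H) * (1 + Real.log K))) := by ring
  have e3 : 36 * ((H : ℝ) * K * ((1 + Real.log H) * (1 + Real.log K))) ≤
      288 * 2 ^ d * ((H : ℝ) * K * ((1 + Real.log H) * (1 + Real.log K))) := by
    apply mul_le_mul_of_nonneg_right _ e1
    linarith
  rw [e2]
  refine (add_le_add_left e3 _).trans (le_of_eq ?_)
  ring

end Run7.h462.BPD
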