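import Pool.Agent.Run7.h462.BPD.Stm
import Pool.Agent.Run7.h462.BP.Tii

/-! Piece TII of project BPD: the double large sieve for the sums with phases `s h (j k)^(1/d)`. -/

set_option autoImplicit false

namespace Run7.h462.BPD

open Finset
open Pool.Agent.H469R2.NK (e norm_e e_add conj_e)
open Run7.h462.BP (geo_le sum_dist_le)

/-- The sum over the differences. -/
theorem sum_g_le' (J G : ℕ) (hJ : 1 ≤ J) (hG : 1 ≤ G) (B : ℝ) (hB : 0 ≤ B) (g : ℕ → ℝ) (h1 : ∀ d, g d ≤ 4 * (G : ℝ) ^ 2)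
    (h2 : ∀ d, 1 ≤ d → g d ≤ B * (J : ℝ) ^ 2 / (d : ℝ) ^ 2) :
    ∑ d ∈ range (J + 1), g d ≤ (B + 8) * G * (G + J) := by
  set T : ℕ := ⌈(J : ℝ) / G⌉₊ with hT
  have hG0 : (0:ℝ) < G := by exact_mod_cast hG
  have hJ0 : (0:ℝ) < J := by exact_mod_cast hJ
  have hT1 : (J : ℝ) / G ≤ T := Nat.le_ceil _
  have hT2 : (T : ℝ) < (J : ℝ) / G + 1 := Nat.ceil_lt_add_one (by positivity)
  have hT0 : 0 < T := by
    have : (0:ℝ) < T := lt_of_lt_of_le (by positivity) hT1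
    exact_mod_cast this
  have hTJ : T ≤ J := by
    refine Nat.ceil_le.2 ?_
    rw [div_le_iff₀ hG0]
    have : (1:ℝ) ≤ G := by exact_mod_cast hG
    nlinarith
  have hsplit : range (J + 1) = range (T + 1) ∪ Ioc T J := by
    ext x; simp only [mem_range, mem_union, mem_Ioc]; omega
  have hdisj : Disjoint (range (T + 1)) (Ioc T J) := by
    rw [Finset.disjoint_left]; intro x; simp only [mem_range, mem_Ioc]; omega
  rw [hsplit, sum_union hdisj]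
  have e1 : ∑ d ∈ range (T + 1), g d ≤ (T + 1) * (4 * (G : ℝ) ^ 2) := by
    calc ∑ d ∈ range (T + 1), g d ≤ ∑ d ∈ range (T + 1), 4 * (G : ℝ) ^ 2 := sum_le_sum fun d _ => h1 d
      _ = _ := by rw [sum_const, card_range]; simp
  have e2 : ∑ d ∈ Ioc T J, g d ≤ B * (J : ℝ) ^ 2 / T := by
    calc ∑ d ∈ Ioc T J, g d ≤ ∑ d ∈ Ioc T J, B * (J : ℝ) ^ 2 * ((d : ℝ) ^ 2)⁻¹ := by
          refine sum_le_sum fun d hd => ?_
          have := h2 d (by have := (mem_Ioc.1 hd).1; omega)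
          rwa [div_eq_mul_inv] at this
      _ = B * (J : ℝ) ^ 2 * ∑ d ∈ Ioc T J, ((d : ℝ) ^ 2)⁻¹ := by rw [mul_sum]
      _ ≤ B * (J : ℝ) ^ 2 * ((T : ℝ)⁻¹ - (J : ℝ)⁻¹) := by
          refine mul_le_mul_of_nonneg_left (sum_Ioc_inv_sq_le_sub hT0.ne' hTJ) (by positivity)
      _ ≤ B * (J : ℝ) ^ 2 / T := by
          rw [div_eq_mul_inv]
          refine mul_le_mul_of_nonneg_left ?_ (by positivity)
          have : (0:ℝ) ≤ (J : ℝ)⁻¹ := by positivity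
          linarith
  have e3 : B * (J : ℝ) ^ 2 / T ≤ B * (J * G) := by
    have hT0' : (0:ℝ) < T := by exact_mod_cast hT0
    rw [div_le_iff₀ hT0']
    rw [div_le_iff₀ hG0] at hT1
    have : (J : ℝ) ^ 2 ≤ J * G * T := by nlinarith
    calc B * (J : ℝ) ^ 2 ≤ B * (J * G * T) := by gcongr
      _ = _ := by ring
  have e4 : ((T:ℝ) + 1) * (4 * (G : ℝ) ^ 2) ≤ 4 * J * G + 8 * G ^ 2 := by
    have : (T : ℝ) * G ≤ J + G := by
      have h3 : (T:ℝ) ≤ (J : ℝ) / G + 1 := hT2.le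
      calc (T : ℝ) * G ≤ ((J : ℝ) / G + 1) * G := by gcongr
        _ = J + G := by field_simp
    nlinarith
  have e5 : 0 ≤ B * (G * G : ℝ) := by positivity
  have e6 : (0 : ℝ) ≤ G * J := by positivity
  have e7 : (B + 8) * G * ((G : ℝ) + J) = B * (G * G) + B * (J * G) + 8 * G ^ 2 + 8 * (G * J) := by ring
  rw [e7]
  linarith

/-- differences of powers -/
theorem rpow_diff (θ : ℝ) (h0 : 0 < θ) (h1 : θ ≤ 1) (u v : ℝ) (hv : 0 < v) (hvu : v ≤ u) (hu : u ≤ 1) :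
    θ * (u - v) ≤ u ^ θ - v ^ θ := by
  have hu0 : 0 < u := lt_of_lt_of_le hv hvu
  have h2 : (1 + (v / u - 1)) ^ θ ≤ 1 + θ * (v / u - 1) := by
    apply rpow_one_add_le_one_add_mul_self _ h0.le h1
    have : 0 ≤ v / u := by positivity
    linarith
  have h3 : v ^ θ = u ^ θ * (1 + (v / u - 1)) ^ θ := by
    rw [← Real.mul_rpow hu0.le (by have : 0 ≤ v / u := by positivity
                                   linarith)]
    congr 1
    field_simp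
    ring
  have h4 : 0 < u ^ θ := Real.rpow_pos_of_pos hu0 _
  have h5 : u ≤ u ^ θ := by
    nth_rewrite 1 [← Real.rpow_one u]
    exact Real.rpow_le_rpow_of_exponent_ge hu0 hu h1
  have h6 : v ^ θ ≤ u ^ θ * (1 + θ * (v / u - 1)) := by
    rw [h3]; gcongr
  have h7 : θ * (u - v) = u * (θ * (1 - v / u)) := by field_simp
  have h8 : 0 ≤ θ * (1 - v / u) := by
    apply mul_nonneg h0.le
    have : v / u ≤ 1 := by rw [div_le_one hu0]; exact hvu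
    linarith
  have h9 : u * (θ * (1 - v / u)) ≤ u ^ θ * (θ * (1 - v / u)) := by gcongr
  nlinarith

/-- differences of powers in a dyadic interval -/
theorem rpow_sub_ge (θ : ℝ) (h0 : 0 < θ) (h1 : θ ≤ 1) (J i j : ℕ) (hJ : 1 ≤ J) (hi : i ∈ Ioc J (2 * J)) (hj : j ∈ Ioc J (2 * J)) :
    θ * (Nat.dist i j : ℝ) / (2 * J) * (2 * (J : ℝ)) ^ θ ≤ |(i : ℝ) ^ θ - (j : ℝ) ^ θ| := by
  wlog hij : j ≤ i with H
  · rw [Nat.dist_comm, abs_sub_comm]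
    exact H θ h0 h1 J j i hJ hj hi (by omega)
  have hi' := mem_Ioc.1 hi
  have hj' := mem_Ioc.1 hj
  have hJ0 : (0:ℝ) < J := by exact_mod_cast hJ
  have hY : (0 : ℝ) < (2 * (J : ℝ)) ^ θ := by positivity
  have hd : (Nat.dist i j : ℝ) = i - j := by
    rw [Nat.dist_eq_sub_of_le_right hij]
    push_cast [hij]; ring
  have hj0 : (0 : ℝ) < j := by exact_mod_cast (by omega : 0 < j)
  have hi0 : (0 : ℝ) < i := by exact_mod_cast (by omega : 0 < i)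
  have hijr : (j : ℝ) ≤ i := by exact_mod_cast hij
  have hi2 : (i : ℝ) ≤ 2 * J := by exact_mod_cast hi'.2
  have h2 := rpow_diff θ h0 h1 ((i : ℝ) / (2 * J)) ((j : ℝ) / (2 * J)) (by positivity) (by gcongr)
    (by rw [div_le_one (by positivity)]; exact hi2)
  rw [Real.div_rpow hi0.le (by positivity), Real.div_rpow hj0.le (by positivity)] at h2
  have h3 : θ * (Nat.dist i j : ℝ) / (2 * J) * (2 * (J : ℝ)) ^ θ ≤ (i : ℝ) ^ θ - (j : ℝ) ^ θ := by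
    rw [hd]
    have h4 : θ * ((i : ℝ) / (2 * J) - (j : ℝ) / (2 * J)) * (2 * (J : ℝ)) ^ θ ≤
        ((i : ℝ) ^ θ / (2 * (J : ℝ)) ^ θ - (j : ℝ) ^ θ / (2 * (J : ℝ)) ^ θ) * (2 * (J : ℝ)) ^ θ :=
      mul_le_mul_of_nonneg_right h2 hY.le
    have h5 : ((i : ℝ) ^ θ / (2 * (J : ℝ)) ^ θ - (j : ℝ) ^ θ / (2 * (J : ℝ)) ^ θ) * (2 * (J : ℝ)) ^ θ =
        (i : ℝ) ^ θ - (j : ℝ) ^ θ := by field_simp
    rw [h5] at h4
    refine le_trans (le_of_eq ?_) h4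
    ring
  exact h3.trans (le_abs_self _)

/-- The pair sums of the short variable. -/
theorem ny_le' (d : ℕ) (hd : 1 ≤ d) (J G : ℕ) (hJ : 1 ≤ J) (hG : 1 ≤ G) :
    ∑ s ∈ Ioc J (2 * J), ∑ s' ∈ Ioc J (2 * J),
      ‖∑ p ∈ range (2 * G), e (1 / (4 * (2 * (J : ℝ)) ^ (1 / (d : ℝ))) * p * ((s:ℝ) ^ (1 / (d : ℝ)) - (s':ℝ) ^ (1 / (d : ℝ))))‖ ^ 2 ≤
      G * ((2 * (256 * (d : ℝ) ^ 2 + 8)) * J * (G + J)) := by
  have hd0 : (0 : ℝ) < d := by exact_mod_cast hd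
  have hd1 : (1 : ℝ) ≤ d := by exact_mod_cast hd
  obtain ⟨θ, hθd⟩ : ∃ θ : ℝ, θ = 1 / (d : ℝ) := ⟨_, rfl⟩
  have hθ0 : 0 < θ := by rw [hθd]; positivity
  have hθ1 : θ ≤ 1 := by rw [hθd, div_le_one hd0]; exact hd1
  rw [← hθd]
  have hJ0 : (0:ℝ) < J := by exact_mod_cast hJ
  have hG0 : (0:ℝ) < G := by exact_mod_cast hG
  obtain ⟨Y, hYd⟩ : ∃ Y : ℝ, Y = (2 * (J : ℝ)) ^ θ := ⟨_, rfl⟩
  have hY : (0:ℝ) < Y := by rw [hYd]; positivity
  rw [← hYd]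
  set g : ℕ → ℝ := fun n => if n = 0 then 4 * (G:ℝ) ^ 2 else min (4 * (G:ℝ) ^ 2) (256 * (d : ℝ) ^ 2 * (J:ℝ) ^ 2 / (n:ℝ) ^ 2) with hg
  have hg0 : ∀ d, 0 ≤ g d := by
    intro d; rw [hg]; simp only; split_ifs
    · positivity
    · exact le_min (by positivity) (by positivity)
  have hg1 : ∀ d, g d ≤ 4 * (G:ℝ) ^ 2 := by
    intro d; rw [hg]; simp only; split_ifs
    · exact le_refl _
    · exact min_le_left _ _
  have hg2 : ∀ n, 1 ≤ n → g n ≤ 256 * (d : ℝ) ^ 2 * (J:ℝ) ^ 2 / (n:ℝ) ^ 2 := by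
    intro d hd; rw [hg]; simp only; rw [if_neg (by omega)]; exact min_le_right _ _
  have hrow : ∀ s ∈ Ioc J (2 * J), ∑ s' ∈ Ioc J (2 * J),
      ‖∑ p ∈ range (2 * G), e (1 / (4 * Y) * p * ((s:ℝ) ^ θ - (s':ℝ) ^ θ))‖ ^ 2 ≤ 2 * ((256 * (d : ℝ) ^ 2 + 8) * G * (G + J)) := by
    intro s hs
    refine (sum_dist_le J s hs _ g hg0 ?_).trans (by linarith [sum_g_le' J G hJ hG (256 * (d : ℝ) ^ 2) (by positivity) g hg1 hg2])
    intro i hi
    have htriv : ‖∑ p ∈ range (2 * G), e (1 / (4 * Y) * p * ((s:ℝ) ^ θ - (i:ℝ) ^ θ))‖ ≤ 2 * G := by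
      refine (norm_sum_le _ _).trans ?_
      simp [norm_e]
    have htriv2 : ‖∑ p ∈ range (2 * G), e (1 / (4 * Y) * p * ((s:ℝ) ^ θ - (i:ℝ) ^ θ))‖ ^ 2 ≤ 4 * (G:ℝ) ^ 2 := by
      have := pow_le_pow_left₀ (norm_nonneg _) htriv 2
      linarith [this, (by ring : (2 * (G:ℝ)) ^ 2 = 4 * (G:ℝ) ^ 2)]
    rw [hg]; simp only
    split_ifs with h0
    · exact htriv2
    refine le_min htriv2 ?_
    have hd0' : (0:ℝ) < (Nat.dist i s : ℝ) := by exact_mod_cast Nat.pos_of_ne_zero h0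
    set φ : ℝ := 1 / (4 * Y) * ((s:ℝ) ^ θ - (i:ℝ) ^ θ) with hφ
    have hsum : ∑ p ∈ range (2 * G), e (1 / (4 * Y) * p * ((s:ℝ) ^ θ - (i:ℝ) ^ θ)) =
        ∑ p ∈ range (2 * G), e (φ * p) := by
      refine sum_congr rfl fun p _ => ?_
      congr 1; rw [hφ]; ring
    have hsub := rpow_sub_ge θ hθ0 hθ1 J i s hJ hi hs
    rw [abs_sub_comm, ← hYd] at hsub
    have hφge : (Nat.dist i s : ℝ) / (8 * d * J) ≤ |φ| := by
      rw [hφ, abs_mul, abs_of_pos (by positivity : (0:ℝ) < 1 / (4 * Y))]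
      calc (Nat.dist i s : ℝ) / (8 * d * J) = 1 / (4 * Y) * (θ * (Nat.dist i s : ℝ) / (2 * J) * Y) := by
            rw [hθd]
            field_simp
            ring
        _ ≤ _ := mul_le_mul_of_nonneg_left hsub (by positivity)
    have hφpos : 0 < |φ| := lt_of_lt_of_le (by positivity) hφge
    have hφ4 : |φ| ≤ 1 / 4 := by
      rw [hφ, abs_mul, abs_of_pos (by positivity : (0:ℝ) < 1 / (4 * Y))]
      have hs1 : (s:ℝ) ^ θ ≤ Y := by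
        rw [hYd]
        apply Real.rpow_le_rpow (Nat.cast_nonneg _) _ hθ0.le
        exact_mod_cast (mem_Ioc.1 hs).2
      have hi1 : (i:ℝ) ^ θ ≤ Y := by
        rw [hYd]
        apply Real.rpow_le_rpow (Nat.cast_nonneg _) _ hθ0.le
        exact_mod_cast (mem_Ioc.1 hi).2
      have hs2 : 0 ≤ (s:ℝ) ^ θ := by positivity
      have hi2 : 0 ≤ (i:ℝ) ^ θ := by positivity
      have hab : |(s:ℝ) ^ θ - (i:ℝ) ^ θ| ≤ Y := by
        rw [abs_le]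
        constructor <;> linarith
      calc 1 / (4 * Y) * |(s:ℝ) ^ θ - (i:ℝ) ^ θ| ≤ 1 / (4 * Y) * Y :=
            mul_le_mul_of_nonneg_left hab (by positivity)
        _ = 1 / 4 := by field_simp
    have hgeo := geo_le φ (abs_pos.1 hφpos) hφ4 (2 * G)
    have h2 : 2 / |φ| ≤ 16 * d * J / (Nat.dist i s : ℝ) := by
      rw [div_le_div_iff₀ hφpos hd0']
      rw [div_le_iff₀ (by positivity)] at hφge
      nlinarith
    have h3 : ‖∑ p ∈ range (2 * G), e (1 / (4 * Y) * p * ((s:ℝ) ^ θ - (i:ℝ) ^ θ))‖ ≤ 16 * d * J / (Nat.dist i s : ℝ) := by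
      rw [hsum]; exact hgeo.trans h2
    have h4 := pow_le_pow_left₀ (norm_nonneg _) h3 2
    refine h4.trans (le_of_eq ?_)
    rw [div_pow]; ring
  calc _ ≤ ∑ s ∈ Ioc J (2 * J), 2 * ((256 * (d : ℝ) ^ 2 + 8) * G * ((G:ℝ) + J)) := sum_le_sum hrow
    _ = _ := by
        rw [sum_const, Nat.card_Ioc, nsmul_eq_mul]
        have : ((2 * J - J : ℕ) : ℝ) = J := by
          have : 2 * J - J = J := by omega
          rw [this]
        rw [this]; ring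

/-- powers near one -/
theorem pow_near (x ρ : ℝ) (hρ : 0 ≤ ρ) (hρ1 : ρ ≤ 1) (h : |x - 1| ≤ ρ) (d : ℕ) : |x ^ d - 1| ≤ (2 ^ d - 1) * ρ := by
  have hx := abs_le.1 h
  have hx2 : |x| ≤ 2 := by rw [abs_le]; constructor <;> linarith
  induction d with
  | zero => simp
  | succ n ih =>
    have e1 : x ^ (n + 1) - 1 = x * (x ^ n - 1) + (x - 1) := by ring
    rw [e1]
    refine (abs_add_le _ _).trans ?_
    rw [abs_mul]
    have h1 : |x| * |x ^ n - 1| ≤ 2 * ((2 ^ n - 1) * ρ) := by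
      apply mul_le_mul hx2 ih (abs_nonneg _) (by norm_num)
    calc _ ≤ 2 * ((2 ^ n - 1) * ρ) + ρ := add_le_add h1 h
      _ = _ := by ring

/-- the numbers `h k^θ` close to each other -/
theorem close_of (s : ℝ) (hs : 0 < s) (d : ℕ) (hd : 1 ≤ d) (H K : ℕ) (hH : 1 ≤ H) (hK : 1 ≤ K) (τ : ℝ) (hτ : 0 ≤ τ)
    (h k h' k' : ℕ) (h1 : H ≤ h ∧ h < 2 * H) (h2 : K < k ∧ k ≤ 2 * K) (h3 : H ≤ h' ∧ h' < 2 * H) (h4 : K < k' ∧ k' ≤ 2 * K)
    (hc : |s * h * (k : ℝ) ^ (1 / (d : ℝ)) - s * h' * (k' : ℝ) ^ (1 / (d : ℝ))| ≤ τ) :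
    |((h : ℝ) / h') ^ d - (k' : ℝ) / k| ≤ 2 ^ (d + 1) * (τ / s / (H * (K : ℝ) ^ (1 / (d : ℝ)))) := by
  have hH0 : (0:ℝ) < H := by exact_mod_cast hH
  have hK0 : (0:ℝ) < K := by exact_mod_cast hK
  have hh0 : (0:ℝ) < h := by exact_mod_cast (by omega : 0 < h)
  have hh0' : (0:ℝ) < h' := by exact_mod_cast (by omega : 0 < h')
  have hk0 : (0:ℝ) < k := by exact_mod_cast (by omega : 0 < k)
  have hk0' : (0:ℝ) < k' := by exact_mod_cast (by omega : 0 < k')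
  have hd0 : (0 : ℝ) < d := by exact_mod_cast hd
  obtain ⟨θ, hθd⟩ : ∃ θ : ℝ, θ = 1 / (d : ℝ) := ⟨_, rfl⟩
  have hθ0 : 0 < θ := by rw [hθd]; positivity
  rw [← hθd] at hc ⊢
  obtain ⟨ρ, hρ⟩ : ∃ ρ : ℝ, ρ = τ / s / (H * (K : ℝ) ^ θ) := ⟨_, rfl⟩
  have hρ0 : 0 ≤ ρ := by rw [hρ]; positivity
  rw [← hρ]
  have hkk : (k' : ℝ) / k ≤ 2 := by
    rw [div_le_iff₀ hk0]
    exact_mod_cast (by omega : k' ≤ 2 * k)
  have hkk0 : 0 ≤ (k' : ℝ) / k := by positivity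
  have h2d : (2 : ℝ) ≤ 2 ^ d := by
    calc (2 : ℝ) = 2 ^ 1 := by norm_num
      _ ≤ 2 ^ d := pow_le_pow_right₀ (by norm_num) hd
  rcases le_or_gt ρ 1 with hc1 | hc1
  · -- `A/B` is near one
    obtain ⟨A, hA⟩ : ∃ A : ℝ, A = h * (k : ℝ) ^ θ := ⟨_, rfl⟩
    obtain ⟨B, hB⟩ : ∃ B : ℝ, B = h' * (k' : ℝ) ^ θ := ⟨_, rfl⟩
    have hB0 : 0 < B := by rw [hB]; positivity
    have hBge : H * (K : ℝ) ^ θ ≤ B := by
      rw [hB]
      have u1 : (H : ℝ) ≤ h' := by exact_mod_cast h3.1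
      have u2 : (K : ℝ) ≤ k' := by exact_mod_cast h4.1.le
      gcongr
    have hAB : |A - B| ≤ τ / s := by
      rw [le_div_iff₀ hs]
      have e1 : s * h * (k : ℝ) ^ θ - s * h' * (k' : ℝ) ^ θ = s * (A - B) := by rw [hA, hB]; ring
      rw [e1, abs_mul, abs_of_pos hs] at hc
      linarith
    have hx : |A / B - 1| ≤ ρ := by
      have e1 : A / B - 1 = (A - B) / B := by field_simp
      rw [e1, abs_div, abs_of_pos hB0, hρ]
      gcongr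
    have hpow : (A / B) ^ d = ((h : ℝ) / h') ^ d * ((k : ℝ) / k') := by
      rw [hA, hB, div_pow, mul_pow, mul_pow, div_pow]
      have e1 : ((k : ℝ) ^ θ) ^ d = k := by
        rw [← Real.rpow_natCast, ← Real.rpow_mul hk0.le, hθd, one_div, inv_mul_cancel₀ hd0.ne', Real.rpow_one]
      have e2 : ((k' : ℝ) ^ θ) ^ d = k' := by
        rw [← Real.rpow_natCast, ← Real.rpow_mul hk0'.le, hθd, one_div, inv_mul_cancel₀ hd0.ne', Real.rpow_one]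
      rw [e1, e2]
      field_simp
    have hn := pow_near (A / B) ρ hρ0 hc1 hx d
    have e3 : ((h : ℝ) / h') ^ d - (k' : ℝ) / k = (k' : ℝ) / k * ((A / B) ^ d - 1) := by
      rw [hpow]
      field_simp
    rw [e3, abs_mul, abs_of_nonneg hkk0]
    calc (k' : ℝ) / k * |(A / B) ^ d - 1| ≤ 2 * ((2 ^ d - 1) * ρ) := by
          apply mul_le_mul hkk hn (abs_nonneg _) (by norm_num)
      _ ≤ 2 * (2 ^ d * ρ) := by
          have : (2 ^ d - 1) * ρ ≤ 2 ^ d * ρ := by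
            apply mul_le_mul_of_nonneg_right _ hρ0
            linarith
          linarith
      _ = _ := by rw [pow_succ]; ring
  · have hhh : (h : ℝ) / h' ≤ 2 := by
      rw [div_le_iff₀ hh0']
      exact_mod_cast (by omega : h ≤ 2 * h')
    have hhh0 : 0 ≤ (h : ℝ) / h' := by positivity
    have hp : ((h : ℝ) / h') ^ d ≤ 2 ^ d := pow_le_pow_left₀ hhh0 hhh d
    have hp0 : 0 ≤ ((h : ℝ) / h') ^ d := by positivity
    have h5 : |((h : ℝ) / h') ^ d - (k' : ℝ) / k| ≤ 2 ^ d := by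
      rw [abs_le]
      constructor <;> linarith
    refine h5.trans ?_
    rw [pow_succ]
    nlinarith

/-- **TII** from **SPC**. -/
theorem tii (s : ℝ) (hs : 0 < s) (d : ℕ) (hd : 2 ≤ d) (hS : S_SPC d) : S_TII s d := by
  obtain ⟨C, hC1, hC⟩ := hS
  have hd0 : (0 : ℝ) < d := by exact_mod_cast (by omega : 0 < d)
  obtain ⟨c1, hc1⟩ : ∃ c1 : ℝ, c1 = 16 * s + 2 := ⟨_, rfl⟩
  obtain ⟨c2, hc2⟩ : ∃ c2 : ℝ, c2 = 2 ^ d / s + 1 := ⟨_, rfl⟩
  obtain ⟨c3, hc3⟩ : ∃ c3 : ℝ, c3 = 2 * (256 * (d : ℝ) ^ 2 + 8) := ⟨_, rfl⟩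
  have hc11 : 1 ≤ c1 := by rw [hc1]; linarith
  have hc21 : 1 ≤ c2 := by
    rw [hc2]
    have : 0 < 2 ^ d / s := by positivity
    linarith
  have hc31 : 1 ≤ c3 := by
    rw [hc3]
    have : 0 ≤ (d : ℝ) ^ 2 := by positivity
    linarith
  refine ⟨25 * c3 * c1 * (C * c2), ?_, ?_⟩
  · have a1 : 1 ≤ 25 * c3 * c1 := one_le_mul_of_one_le_of_one_le (by linarith) hc11
    exact one_le_mul_of_one_le_of_one_le a1 (one_le_mul_of_one_le_of_one_le hC1 hc21)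
  intro H K J hH hK hJ α β hα hβ
  have hH0 : (0:ℝ) < H := by exact_mod_cast hH
  have hK0 : (0:ℝ) < K := by exact_mod_cast hK
  have hJ0 : (0:ℝ) < J := by exact_mod_cast hJ
  have hJ1 : (1:ℝ) ≤ J := by exact_mod_cast hJ
  have hny := ny_le' d (by omega) J
  obtain ⟨θ, hθd⟩ : ∃ θ : ℝ, θ = 1 / (d : ℝ) := ⟨_, rfl⟩
  have hθ0 : 0 < θ := by rw [hθd]; positivity
  have hθ2 : θ ≤ 1 / 2 := by
    rw [hθd]
    apply one_div_le_one_div_of_le (by norm_num)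
    exact_mod_cast hd
  have hclose := fun (τ : ℝ) (hτ : 0 ≤ τ) (h k h' k' : ℕ) => close_of s hs d (by omega) H K hH hK τ hτ h k h' k'
  rw [← hθd] at hny hclose ⊢
  obtain ⟨Y, hYd⟩ : ∃ Y : ℝ, Y = (2 * (J : ℝ)) ^ θ := ⟨_, rfl⟩
  have hY : (0:ℝ) < Y := by rw [hYd]; positivity
  rw [← hYd] at hny
  obtain ⟨Q, hQ⟩ : ∃ Q : ℝ, Q = ((K : ℝ) * J) ^ θ := ⟨_, rfl⟩
  have hQ0 : 0 < Q := by rw [hQ]; positivity
  rw [← hQ]
  have hKY : (K : ℝ) ^ θ * Y = 2 ^ θ * Q := by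
    rw [hYd, hQ, ← Real.mul_rpow (by positivity) (by positivity), ← Real.mul_rpow (by positivity) (by positivity)]
    congr 1
    ring
  have h2θ1 : (1 : ℝ) ≤ 2 ^ θ := Real.one_le_rpow (by norm_num) hθ0.le
  have h22 : (2 : ℝ) ^ θ * 2 ^ θ ≤ 2 := by
    rw [← Real.rpow_add (by norm_num)]
    calc (2 : ℝ) ^ (θ + θ) ≤ 2 ^ (1 : ℝ) := Real.rpow_le_rpow_of_exponent_le (by norm_num) (by linarith)
      _ = 2 := Real.rpow_one _
  obtain ⟨G, hG⟩ : ∃ G : ℕ, G = ⌊16 * s * (H * Q)⌋₊ + 1 := ⟨_, rfl⟩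
  have hG1 : 1 ≤ G := by omega
  have hGlt : 16 * s * (H * Q) < G := by rw [hG]; push_cast; exact Nat.lt_floor_add_one _
  have hGle : (G:ℝ) ≤ 16 * s * (H * Q) + 1 := by
    rw [hG]; push_cast
    linarith [Nat.floor_le (by positivity : (0:ℝ) ≤ 16 * s * (H * Q))]
  obtain ⟨D, hD⟩ : ∃ D : ℝ, D = 2 ^ (d + 1) * (1 / (4 * Y) / s / (H * (K : ℝ) ^ θ)) := ⟨_, rfl⟩
  have hD0 : 0 ≤ D := by rw [hD]; positivity
  obtain ⟨LL, hLL⟩ : ∃ LL : ℝ, LL = (1 + Real.log H) * (1 + Real.log K) := ⟨_, rfl⟩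
  have hLL0 : 0 ≤ LL := by
    rw [hLL]
    have a1 : 0 ≤ Real.log H := Real.log_nonneg (by exact_mod_cast hH)
    have a2 : 0 ≤ Real.log K := Real.log_nonneg (by exact_mod_cast hK)
    positivity
  have hspc := hC H K D hH hK hD0
  rw [← hLL] at hspc ⊢
  set R := Ico H (2 * H) ×ˢ Ioc K (2 * K) with hR
  set S := Ioc J (2 * J) with hSS
  have hkey := Pool.Agent.H373R2.T4.dls R S (fun r : ℕ × ℕ => s * (r.1:ℝ) * (r.2:ℝ) ^ θ) (fun j : ℕ => (j:ℝ) ^ θ)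
    (fun r => α r.1 r.2) β Y hY G hG1 ?_ ?_ 1 1 (fun r _ => hα _ _) (fun s _ => hβ _) zero_le_one zero_le_one
    (C * (D * H ^ 2 * K ^ 2 + H * K * LL)) (c3 * J * (G + J)) ?_ (by rw [hc3]; exact hny G hJ hG1)
  · have hsum : ∑ h ∈ Ico H (2 * H), ∑ k ∈ Ioc K (2 * K), ∑ j ∈ Ioc J (2 * J), α h k * β j * e (s * h * ((j : ℝ) * k) ^ θ) =
        ∑ r ∈ R, ∑ j ∈ S, α r.1 r.2 * β j * e (s * (r.1:ℝ) * (r.2:ℝ) ^ θ * (j:ℝ) ^ θ) := by
      rw [hR, sum_product]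
      refine sum_congr rfl fun h _ => sum_congr rfl fun k _ => sum_congr rfl fun j _ => ?_
      congr 2
      rw [Real.mul_rpow (Nat.cast_nonneg _) (Nat.cast_nonneg _)]; ring
    rw [hsum]
    refine hkey.trans ?_
    have hGJ : (G:ℝ) + J ≤ c1 * (H * Q + J) := by
      have h1 : (0:ℝ) ≤ H * Q := by positivity
      rw [hc1]
      nlinarith [mul_nonneg hs.le hJ0.le]
    have hDD : D * H ^ 2 * K ^ 2 ≤ (2 ^ d / s) * (H * K ^ 2 / Q) := by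
      have e1 : D * H ^ 2 * K ^ 2 = (2 ^ d / s) * (H * K ^ 2 / (2 * ((K : ℝ) ^ θ * Y))) := by
        rw [hD, pow_succ]
        field_simp
        ring
      rw [e1, hKY]
      have : Q ≤ 2 * (2 ^ θ * Q) := by nlinarith
      gcongr
    have hN : D * H ^ 2 * K ^ 2 + H * K * LL ≤ c2 * (H * K ^ 2 / Q + H * K * LL) := by
      have h1 : 0 ≤ H * (K : ℝ) ^ 2 / Q := by positivity
      have h2 : 0 ≤ (H : ℝ) * K * LL := by positivity
      have h3 : 0 ≤ 2 ^ d / s := by positivity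
      rw [hc2]
      nlinarith [mul_nonneg h3 h2]
    have hN0 : 0 ≤ D * H ^ 2 * K ^ 2 + H * K * LL := by positivity
    calc 25 * (1 ^ 2 * (C * (D * H ^ 2 * K ^ 2 + H * K * LL)) * (1 ^ 2 * (c3 * J * (G + J))))
        = 25 * c3 * J * ((C * (D * H ^ 2 * K ^ 2 + H * K * LL)) * (G + J)) := by ring
      _ ≤ 25 * c3 * J * ((C * (c2 * (H * K ^ 2 / Q + H * K * LL))) * (c1 * (H * Q + J))) := by gcongr
      _ = _ := by ring
  · rintro ⟨h, k⟩ hr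
    rw [hR, mem_product] at hr
    obtain ⟨h1, h2⟩ := hr
    have hh := (mem_Ico.1 h1).2
    have hk := (mem_Ioc.1 h2).2
    simp only at hh hk
    refine ⟨by positivity, ?_⟩
    have hh' : (h:ℝ) ≤ 2 * H := by exact_mod_cast hh.le
    have hk' : (k:ℝ) ≤ 2 * K := by exact_mod_cast hk
    calc s * (h:ℝ) * (k:ℝ) ^ θ * (4 * Y) ≤ s * (2 * H) * (2 * (K:ℝ)) ^ θ * (4 * Y) := by gcongr
      _ = 8 * s * H * (2 ^ θ * ((K:ℝ) ^ θ * Y)) := by
          rw [Real.mul_rpow (by norm_num) hK0.le]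
          ring
      _ = 8 * s * H * Q * (2 ^ θ * 2 ^ θ) := by rw [hKY]; ring
      _ ≤ 8 * s * H * Q * 2 := by gcongr
      _ = 16 * s * (H * Q) := by ring
      _ < G := hGlt
  · intro j hj
    refine ⟨by positivity, ?_⟩
    rw [hYd]
    apply Real.rpow_le_rpow (Nat.cast_nonneg _) _ hθ0.le
    exact_mod_cast (mem_Ioc.1 hj).2
  · refine le_trans ?_ hspc
    have hsub : (R ×ˢ R).filter (fun v : (ℕ × ℕ) × (ℕ × ℕ) =>
        |s * (v.1.1:ℝ) * (v.1.2:ℝ) ^ θ - s * (v.2.1:ℝ) * (v.2.2:ℝ) ^ θ| ≤ 1 / (4 * Y)) ⊆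
        (R ×ˢ R).filter (fun v : (ℕ × ℕ) × (ℕ × ℕ) => |((v.1.1 : ℝ) / v.2.1) ^ d - (v.2.2 : ℝ) / v.1.2| ≤ D) := by
      rintro ⟨⟨h, k⟩, ⟨h', k'⟩⟩ hv
      rw [mem_filter] at hv ⊢
      obtain ⟨hv1, hv2⟩ := hv
      refine ⟨hv1, ?_⟩
      rw [hR, mem_product, mem_product, mem_product] at hv1
      simp only [mem_Ico, mem_Ioc] at hv1 hv2 ⊢
      obtain ⟨⟨ha, hb⟩, ⟨hc, hd'⟩⟩ := hv1
      rw [hD]
      exact hclose _ (by positivity) h k h' k' ha hb hc hd' hv2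
    exact_mod_cast card_le_card hsub

end Run7.h462.BPD
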