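import Mathlib
import Pool.Agent.Run7.h757.BP.Stm
import Pool.Agent.TH204.WR.W13

/-!
# Project BPD (helper462): primes `F(n) + a`, `F` an integer polynomial of degree `d = 2, 3, 4` with positive leading
coefficient, for a positive proportion of the `a ≤ A`, `N^(3d/4 - 1 + ε) ≤ A ≤ N^(d - 1)`

Statements. Every statement is a `Prop` with a complete proof in its docstring. `θ = 1/d`, `s = ℓ^(-1/d)` with `ℓ` the leading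
coefficient.
-/

set_option autoImplicit false

namespace Run7.h462.BPD

open Finset Filter Topology
open Pool.Agent.H469R2.NK (e)
open Pool.Agent.N792 (tri triC)
open Pool.Agent.H373R2.T7 (pz Vz)
open Pool.Agent.TH204.WR (rho hh)
open scoped Polynomial

/-- the sum over a block of frequencies -/
noncomputable def EE (s : ℝ) (d H : ℕ) (c : ℕ → ℂ) (v : ℕ) : ℂ :=
  ∑ h ∈ Ico H (2 * H), c h * e (s * h * (v : ℝ) ^ (1 / (d : ℝ)))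

/-- **SPC**. Proof. For given `g = gcd (h, h')`, `l = gcd (k, k')`: the fractions `k'/k` with `gcd (k, k') = l`, `k, k' ≤ 2K`
are spaced by `l² / (4 K²)` at least (if they are equal then so are the pairs), so for given `(h, h')` there are at most
`1 + 8 Δ K² / l²` pairs `(k, k')`; the number of the pairs `(h, h')` in `[H, 2H)` with both divisible by `g` is at most
`(H/g + 1)² ≤ (3H/g)²`. In the same way, for given `(k, k')` the numbers `(h/h')^d` lie in an interval of length `2Δ`, so the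
numbers `h/h' ∈ [1/2, 2]` lie in an interval of length `2^d Δ` and are spaced by `g² / (4H²)`: at most `1 + 2^(d+2) Δ H² / g²`
pairs `(h, h')`. If `H/g ≤ K/l` use the first, otherwise the second bound: the number of the solutions with the given `g`, `l` is
at most `C (H K / (g l) + Δ H² K² / (g² l²))`. Sum over `g ≤ 2H`, `l ≤ 2K`. -/
def S_SPC (d : ℕ) : Prop := ∃ C : ℝ, 1 ≤ C ∧ ∀ (H K : ℕ) (D : ℝ), 1 ≤ H → 1 ≤ K → 0 ≤ D →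
  (#(((Ico H (2 * H) ×ˢ Ioc K (2 * K)) ×ˢ (Ico H (2 * H) ×ˢ Ioc K (2 * K))).filter
    (fun v : (ℕ × ℕ) × (ℕ × ℕ) => |((v.1.1 : ℝ) / v.2.1) ^ d - (v.2.2 : ℝ) / v.1.2| ≤ D)) : ℝ) ≤
    C * (D * H ^ 2 * K ^ 2 + H * K * ((1 + Real.log H) * (1 + Real.log K)))

/-- **TII**: the double large sieve (from SPC), see `Pool/Agent/Run7/h462/BP/Tii.lean`. -/
def S_TII (s : ℝ) (d : ℕ) : Prop := ∃ C : ℝ, 1 ≤ C ∧ ∀ (H K J : ℕ), 1 ≤ H → 1 ≤ K → 1 ≤ J →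
  ∀ (α : ℕ → ℕ → ℂ) (β : ℕ → ℂ), (∀ h k, ‖α h k‖ ≤ 1) → (∀ j, ‖β j‖ ≤ 1) →
  ‖∑ h ∈ Ico H (2 * H), ∑ k ∈ Ioc K (2 * K), ∑ j ∈ Ioc J (2 * J), α h k * β j *
    e (s * h * ((j : ℝ) * k) ^ (1 / (d : ℝ)))‖ ^ 2 ≤
    C * (J * (H * ((K : ℝ) * J) ^ (1 / (d : ℝ)) + J)) *
      (H * K ^ 2 / ((K : ℝ) * J) ^ (1 / (d : ℝ)) + H * K * ((1 + Real.log H) * (1 + Real.log K)))

/-- **BIL**: type II sums with the condition `X < m l ≤ X'` (from TII, `2 ≤ d ≤ 4`), see `Pool/Agent/Run7/h757/BP/Bil.lean`. -/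
def S_BIL (s : ℝ) (d : ℕ) : Prop := ∃ C : ℝ, 1 ≤ C ∧ ∀ (X X' U H M L : ℕ) (c a b : ℕ → ℂ), 1 ≤ H → H ^ 2 ≤ X → 1 ≤ X →
  X ≤ X' → X' ≤ 2 * X → X ≤ 16 * U ^ 4 → 1 ≤ M → 1 ≤ L → U < 2 * M → U < 2 * L → M * L ≤ X' →
  (∀ h, ‖c h‖ ≤ 1) → (∀ m, ‖a m‖ ≤ 1) → (∀ l, ‖b l‖ ≤ 1) →
  ‖∑ m ∈ Ioc M (2 * M), ∑ l ∈ Ioc L (2 * L), a m * b l * (if X < m * l ∧ m * l ≤ X' then EE s d H c (m * l) else 0)‖ ≤
    C * (1 + Real.log X) ^ 2 * (H * (X : ℝ) ^ (3 / 4 : ℝ) + √(H : ℝ) * (X : ℝ) ^ (7 / 8 : ℝ))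

/-- **TI**: the second derivative test, see `Pool/Agent/Run7/h462/BP/Ti.lean` (`2 ≤ d ≤ 4`). -/
def S_TI (s : ℝ) (d : ℕ) : Prop := ∃ C : ℝ, 1 ≤ C ∧ ∀ (X X' h k b : ℕ), 1 ≤ X → X' ≤ 2 * X → 1 ≤ h → h ^ 2 ≤ X → 1 ≤ k →
  k ^ 4 ≤ X → b ≤ X' / k →
  ‖∑ l ∈ Ioc (X / k) b, e (s * h * ((k * l : ℕ) : ℝ) ^ (1 / (d : ℝ)))‖ ≤
    C * (√(h : ℝ) * (X : ℝ) ^ (1 / 4 : ℝ) + (X : ℝ) ^ (7 / 8 : ℝ) / (√(h : ℝ) * k)) * (1 + Real.log X)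

/-- **ES**: exponential sums over primes with the phases `s h v^(1/d)` on average over `h` (from VAU, BIL, TI), see
`Pool/Agent/Run7/h994/BP/ES.lean`. -/
def S_ES (s : ℝ) (d : ℕ) : Prop := ∀ ε : ℝ, 0 < ε → ∃ C : ℝ, 1 ≤ C ∧ ∀ (X X' H : ℕ) (c : ℕ → ℂ), 1 ≤ H → H ^ 2 ≤ X →
  X ≤ X' → X' ≤ 2 * X → (∀ h, ‖c h‖ ≤ 1) →
  ‖∑ n ∈ Ioc X X', ((ArithmeticFunction.vonMangoldt n : ℝ) : ℂ) * EE s d H c n‖ ≤
    C * (X : ℝ) ^ ε * (H * (X : ℝ) ^ (3 / 4 : ℝ) + √(H : ℝ) * (X : ℝ) ^ (7 / 8 : ℝ))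

/-- **TRI**: sums of the triangle function over primes (from ES), see `Pool/Agent/Run7/h994/BP/Tri.lean`. -/
def S_TRI (s : ℝ) (d : ℕ) : Prop := ∀ ε η : ℝ, 0 < ε → 0 < η → ∃ X₀ : ℕ, ∀ X X' : ℕ, X₀ ≤ X → X ≤ X' → X' ≤ 2 * X →
  ∀ δ t : ℝ, (X : ℝ) ^ (-1 / 4 + ε) ≤ δ → δ ≤ 1 / 2 →
  |∑ v ∈ Ioc X X', ArithmeticFunction.vonMangoldt v * tri δ (s * (v : ℝ) ^ (1 / (d : ℝ)) + t) -
    δ * ∑ v ∈ Ioc X X', ArithmeticFunction.vonMangoldt v| ≤ η * (δ * X)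

/-- the number of the `1 ≤ n ≤ N` for which `F(n) + a` is a prime -/
def P (F : ℤ[X]) (a N : ℕ) : ℕ := #((Icc 1 N).filter (fun n : ℕ => Nat.Prime (F.eval (n : ℤ) + a).toNat))

/-- **FM**: the first moment, lower bound (from TRI and the prime number theorem; `2 ≤ d ≤ 4`). Proof. `ℓ > 0` the leading
coefficient, `β = b / (d ℓ)` with `b` the next coefficient, `s = ℓ^(-1/d)`: `|F(n) - ℓ (n + β)^d| ≤ C n^(d-2)` for `n ≥ 1`. Fix a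
large integer `K = K(η)`; `M = ⌊(N - |β| - 2) / K²⌋`, cells `(x_i, x_{i+1}]`, `x_i = ℓ (i M)^d`, `K ≤ i < K²`. In a cell
`R = (i+1) M`, `κ = A / (ℓ d R^(d-1))` (`≤ 1/2` if `c₀` is small), `δ = κ / K`. For a prime `v` in the cell put
`t = s v^(1/d) - β`, so `v = ℓ (t + β)^d`, and suppose that the fractional part `φ` of `t` is in `(δ, κ - δ)`; `n = ⌊t⌋`, so
`1 ≤ n ≤ N`. Then `v - F(n) = ℓ ((t + β)^d - (n + β)^d) + O(n^(d-2))`, where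
`φ d (n + β)^(d-1) ≤ (t + β)^d - (n + β)^d ≤ φ d R^(d-1)`. So `v - F(n) ≥ c δ N^(d-1) - C N^(d-2) > 0` because
`δ ≥ c N^(ε - 1)`·... (`A ≥ N^(3d/4-1+ε) ≥ N^(d-2+ε)` as `d ≤ 4`) and `v - F(n) ≤ (1 - 1/K) A + C N^(d-2) ≤ A`. Hence `v = F(n) + a`,
`1 ≤ a ≤ A`. The sum of the triangle functions `tri δ (θ - j δ)`, `2 ≤ j ≤ K - 2`, is at most the indicator function of
`(δ, κ - δ)` at the fractional part of `θ`. So as in `Pool/Agent/Run7/h994/BP/FM.lean` the sum over the primes of the cell of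
`log p` with `p` of the form `F(n) + a` is at least `(K - 3) δ (1 - η') (x_{i+1} - x_i) - C √x_{i+1}`, and
`x_{i+1} - x_i ≥ ℓ d M (i M)^(d-1)`, so this is at least `A M (1 - 3/K) (1 - 1/(i+1))^(d-1) (1 - η')`; there are `K² - K` cells;
`log p ≤ d log N + log ℓ + 1`. -/
def S_FM (F : ℤ[X]) : Prop := ∀ η : ℝ, 0 < η → ∃ c₀ : ℝ, 0 < c₀ ∧ ∀ ε : ℝ, 0 < ε → ∃ N₀ : ℕ, ∀ N : ℕ, N₀ ≤ N → ∀ A : ℕ,
  (N : ℝ) ^ (3 / 4 * (F.natDegree : ℝ) - 1 + ε) ≤ A → (A : ℝ) ≤ c₀ * (N : ℝ) ^ (F.natDegree - 1) →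
  (1 - η) * (A * N / (F.natDegree * Real.log N)) ≤ ∑ a ∈ Icc 1 A, (P F a N : ℝ)

/-- **UP**: pointwise upper bound with the sieve product. Proof: `Pool.Agent.TH204.WR.flp` with `b = C1`,
`y = z = ⌊N^(1/(10 C1²))⌋`, if `rho F a p < p` for all `p ≤ z`; otherwise `F(n) + a` can only be a prime `≤ z`. In both cases the
`n` with `F(n) + a ≤ z` are at most `z + n₀(F)` in number (`F(n) ≥ n` for `n ≥ n₀`). -/
def S_UP (F : ℤ[X]) : Prop := ∃ C : ℝ, 1 ≤ C ∧ ∃ κ : ℝ, 0 < κ ∧ κ ≤ 1 / 10 ∧ ∃ N₀ : ℕ, ∀ N : ℕ, N₀ ≤ N → ∃ z : ℕ, 2 ≤ z ∧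
  (N : ℝ) ^ κ ≤ z ∧ (z : ℝ) ≤ (N : ℝ) ^ (1 / 10 : ℝ) ∧
  ∀ a : ℕ, (P F a N : ℝ) ≤ C * N * (Vz z * hh F a z) + C * (N : ℝ) ^ (3 / 4 : ℝ)

/-- **SQ**: second moment of the truncated singular series over `1 ≤ a ≤ A`, see `Pool/Agent/Run7/h136/BP/SQ.lean` (`∑_{a mod p}
rho = p` is `Pool.Agent.TH204.WR.rho_mean`, `rho ≤ d` for `p > ℓ` is `rho_le_deg'`). -/
def S_SQ (F : ℤ[X]) : Prop := ∀ E : ℕ, ∃ C : ℝ, 1 ≤ C ∧ ∃ A₀ : ℕ, ∀ A : ℕ, A₀ ≤ A → ∀ w : ℕ, 2 ≤ w →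
  (w : ℝ) ≤ Real.log A ^ E → ∑ a ∈ Icc 1 A, (hh F (a : ℕ) w) ^ 2 ≤ C * A

/-- **AV**: the first moment of the truncated singular series is at most `(1 + η) A`, see `Pool/Agent/Run7/h136/BP/AV.lean`
(with `Pool.Agent.TH204.WR.flp` for `F` and for `X` instead of `fl_poly`, `fl_lin`: the number of the pairs `n ≤ A`, `a ≤ A` such
that `F(n) + a` has no prime factor `≤ w`; terms with a fixed prime divisor `≤ w` are zero). -/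
def S_AV (F : ℤ[X]) : Prop := ∀ (E : ℕ) (η : ℝ), 0 < η → ∃ A₀ : ℕ, ∀ A : ℕ, A₀ ≤ A → ∀ w : ℕ, Real.log A ≤ w →
  (w : ℝ) ≤ Real.log A ^ E → ∑ a ∈ Icc 1 A, hh F (a : ℕ) w ≤ (1 + η) * A

end Run7.h462.BPD
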