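import Pool.Agent.Run7.h462.BPD.Stm
import Pool.Agent.Run7.h757.BP.Fin

/-! Project BPD: assembly. -/

set_option autoImplicit false

namespace Run7.h462.BPD

open Finset Filter Topology
open Pool.Agent.H373R2.T7 (pz Vz)
open Pool.Agent.TH204.WR (rho hh xp tail_all hh_close hh_nonneg)
open Run7.h757.BP.Fin (rpow_ge_log)
open scoped Polynomial

/-- the numerical part -/
lemma numeric' {η θ D C2 C3 t NL FM G A S : ℝ} (hη : 0 < η) (hη1 : η ≤ 1 / 2) (hD0 : 0 < D) (hD : D ≤ 1 / 2)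
    (hθ : θ = η * D / 16) (hC2 : 0 < C2) (hC3 : 0 < C3)
    (ht : t = η * D / (2 * C2 * C3)) (hNL : 0 < NL) (hA : 0 < A) (hFM : (1 - θ) * (D * (A * NL)) ≤ FM)
    (hS : S ≤ G / (2 * t) + t / 2 * (C3 * A))
    (h : FM ≤ θ * (A * NL) + (1 - η) * D * (1 + θ) * NL * ((1 + θ) * A) + 2 * θ * (A * NL) + C2 * NL * S + θ * (A * NL)) :
    η ^ 2 * D ^ 2 / (4 * C2 ^ 2 * C3) * A ≤ G := by
  have hηD : 0 < η * D := mul_pos hη hD0
  have hθ0 : 0 < θ := by rw [hθ]; positivity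
  have hηD1 : η * D ≤ 1 / 4 := by nlinarith
  have hθ1 : θ ≤ 1 / 64 := by rw [hθ]; linarith
  have h1 : (1 - θ) * (D * A) ≤ 4 * (θ * A) + (1 - η) * D * (1 + θ) * ((1 + θ) * A) + C2 * S := by
    have h2 : NL * ((1 - θ) * (D * A)) ≤ NL * (4 * (θ * A) + (1 - η) * D * (1 + θ) * ((1 + θ) * A) + C2 * S) := by
      calc NL * ((1 - θ) * (D * A)) = (1 - θ) * (D * (A * NL)) := by ring
        _ ≤ _ := hFM.trans h
        _ = _ := by ring
    exact le_of_mul_le_mul_left h2 hNL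
  have h4 : (1 - η) * D * (1 + θ) * ((1 + θ) * A) ≤ D * (1 - η + 3 * θ) * A := by
    have h5 : (1 - η) * (1 + θ) ^ 2 ≤ 1 - η + 3 * θ := by
      have h6 : (1 + θ) ^ 2 ≤ 1 + 3 * θ := by nlinarith
      have h7 : (1 - η) * (1 + θ) ^ 2 ≤ (1 - η) * (1 + 3 * θ) := mul_le_mul_of_nonneg_left h6 (by linarith)
      have h8 : 0 ≤ η * θ := by positivity
      nlinarith
    calc (1 - η) * D * (1 + θ) * ((1 + θ) * A) = D * ((1 - η) * (1 + θ) ^ 2) * A := by ring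
      _ ≤ _ := by gcongr
  have h5 : 5 / 8 * (η * D) * A ≤ C2 * S := by
    have h6 : 5 / 8 * (η * D) * A ≤ ((1 - θ) * D - 4 * θ - D * (1 - η + 3 * θ)) * A := by
      apply mul_le_mul_of_nonneg_right _ hA.le
      have h7 : θ * D ≤ θ * (1 / 2) := by gcongr
      have h8 : (1 - θ) * D - 4 * θ - D * (1 - η + 3 * θ) = η * D - 4 * (θ * D) - 4 * θ := by ring
      rw [h8]
      have h9 : 6 * θ = 3 / 8 * (η * D) := by rw [hθ]; ring
      linarith
    nlinarith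
  have ht0 : 0 < t := by rw [ht]; positivity
  have h6 : C2 * S ≤ C2 * (G / (2 * t)) + 1 / 4 * (η * D) * A := by
    calc C2 * S ≤ C2 * (G / (2 * t) + t / 2 * (C3 * A)) := mul_le_mul_of_nonneg_left hS hC2.le
      _ = C2 * (G / (2 * t)) + (C2 * t * C3) / 2 * A := by ring
      _ = _ := by
          congr 2
          rw [ht]
          field_simp
          ring
  have h7 : 3 / 8 * (η * D) * A ≤ C2 * (G / (2 * t)) := by linarith
  have h8 : C2 * (G / (2 * t)) = G * (C2 ^ 2 * C3 / (η * D)) := by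
    rw [ht]
    field_simp
  rw [h8, mul_div_assoc', le_div_iff₀ hηD] at h7
  rw [div_mul_eq_mul_div, div_le_iff₀ (by positivity)]
  nlinarith [mul_pos (mul_pos hηD hηD) hA]

open Classical in
/-- the counting argument -/
lemma count_good {η θ D C2 C3 NL : ℝ} (A : ℕ) (Pf H : ℕ → ℝ) (Ex G : Finset ℕ) (hη : 0 < η) (hη1 : η ≤ 1 / 2)
    (hD0 : 0 < D) (hD : D ≤ 1 / 2) (hθ : θ = η * D / 16) (hC2 : 0 < C2) (hC3 : 0 < C3) (hNL : 0 < NL) (hA : (0 : ℝ) < A)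
    (hH0 : ∀ a, 0 ≤ H a) (hEx : Ex ⊆ Icc 1 A) (hG : G ⊆ Icc 1 A)
    (hup : ∀ a ∈ Icc 1 A, a ∉ Ex → Pf a ≤ C2 * NL * H a + θ * NL)
    (hbad : ∀ a ∈ Icc 1 A, a ∉ Ex → a ∉ G → Pf a ≤ (1 - η) * D * (1 + θ) * NL * H a + 2 * θ * NL)
    (hExP : ∑ a ∈ Ex, Pf a ≤ θ * (A * NL)) (hSQ : ∑ a ∈ Icc 1 A, H a ^ 2 ≤ C3 * A)
    (hAV : ∑ a ∈ Icc 1 A, H a ≤ (1 + θ) * A) (hFM : (1 - θ) * (D * (A * NL)) ≤ ∑ a ∈ Icc 1 A, Pf a) :
    η ^ 2 * D ^ 2 / (4 * C2 ^ 2 * C3) * A ≤ (#G : ℝ) := by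
  have hη2 : 0 ≤ 1 - η := by linarith
  have hθ0 : 0 < θ := by rw [hθ]; positivity
  have hsplit : ∑ a ∈ Icc 1 A, Pf a ≤ ∑ a ∈ Ex, Pf a +
      ∑ a ∈ Icc 1 A, ((1 - η) * D * (1 + θ) * NL * H a) + 2 * θ * (A * NL) + ∑ a ∈ G, (C2 * NL * H a) +
        θ * (A * NL) := by
    have h1 : ∀ a ∈ Icc 1 A, Pf a ≤ (if a ∈ Ex then Pf a else 0) +
        ((1 - η) * D * (1 + θ) * NL * H a) + 2 * θ * NL + (if a ∈ G then C2 * NL * H a else 0) + θ * NL := by
      intro a ha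
      have hp1 : 0 ≤ (1 - η) * D * (1 + θ) * NL * H a := by
        have := hH0 a
        positivity
      have hp2 : 0 ≤ C2 * NL * H a := by
        have := hH0 a
        positivity
      have hp3 : 0 ≤ θ * NL := by positivity
      have hp4 : 2 * θ * NL = 2 * (θ * NL) := by ring
      by_cases haE : a ∈ Ex
      · rw [if_pos haE]
        split_ifs <;> linarith
      · rw [if_neg haE]
        by_cases haG : a ∈ G
        · rw [if_pos haG]
          have := hup a ha haE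
          linarith
        · rw [if_neg haG]
          have := hbad a ha haE haG
          linarith
    refine (sum_le_sum h1).trans ?_
    rw [sum_add_distrib, sum_add_distrib, sum_add_distrib, sum_add_distrib, sum_const, sum_const, Nat.card_Icc,
      nsmul_eq_mul, nsmul_eq_mul, Nat.add_sub_cancel]
    have e1 : ∑ a ∈ Icc 1 A, (if a ∈ Ex then Pf a else 0) = ∑ a ∈ Ex, Pf a := by
      rw [← sum_filter]
      congr 1
      ext a
      rw [mem_filter]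
      exact ⟨fun h => h.2, fun h => ⟨hEx h, h⟩⟩
    have e2 : ∑ a ∈ Icc 1 A, (if a ∈ G then C2 * NL * H a else 0) = ∑ a ∈ G, (C2 * NL * H a) := by
      rw [← sum_filter]
      congr 1
      ext a
      rw [mem_filter]
      exact ⟨fun h => h.2, fun h => ⟨hG h, h⟩⟩
    rw [e1, e2]
    apply le_of_eq
    ring
  obtain ⟨t, ht⟩ : ∃ t : ℝ, t = η * D / (2 * C2 * C3) := ⟨_, rfl⟩
  have ht0 : 0 < t := by rw [ht]; positivity
  have hGF : ∑ a ∈ G, H a ≤ #G / (2 * t) + t / 2 * (C3 * A) := by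
    have h1 : ∀ a ∈ G, H a ≤ 1 / (2 * t) + t / 2 * H a ^ 2 := by
      intro a _
      have h3 : H a * (2 * t) ≤ (1 / (2 * t) + t / 2 * H a ^ 2) * (2 * t) := by
        have e3 : (1 / (2 * t) + t / 2 * H a ^ 2) * (2 * t) = 1 + t ^ 2 * H a ^ 2 := by field_simp
        rw [e3]
        nlinarith [sq_nonneg (t * H a - 1)]
      exact le_of_mul_le_mul_right h3 (by positivity)
    calc ∑ a ∈ G, H a ≤ ∑ a ∈ G, (1 / (2 * t) + t / 2 * H a ^ 2) := sum_le_sum h1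
      _ = #G * (1 / (2 * t)) + t / 2 * ∑ a ∈ G, H a ^ 2 := by
          rw [sum_add_distrib, sum_const, nsmul_eq_mul, mul_sum]
      _ ≤ #G * (1 / (2 * t)) + t / 2 * (C3 * A) := by
          have h2 : ∑ a ∈ G, H a ^ 2 ≤ ∑ a ∈ Icc 1 A, H a ^ 2 := by
            apply sum_le_sum_of_subset_of_nonneg hG
            intro a _ _; positivity
          have h3 := h2.trans hSQ
          gcongr
      _ = _ := by ring
  refine numeric' hη hη1 hD0 hD hθ hC2 hC3 ht hNL hA hFM hGF ?_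
  refine hsplit.trans ?_
  rw [← mul_sum, ← mul_sum]
  have h1 : (1 - η) * D * (1 + θ) * NL * ∑ a ∈ Icc 1 A, H a ≤ (1 - η) * D * (1 + θ) * NL * ((1 + θ) * A) := by
    gcongr
  linarith

/-- the property of the good `a` -/
def GoodB (F : ℤ[X]) (η c : ℝ) (E N a : ℕ) : Prop :=
  ∀ z : ℕ, Real.log N ^ E ≤ z → (z : ℝ) ^ 3 ≤ (N : ℝ) ^ (3 / 4 * (F.natDegree : ℝ) - 1) →
    c ≤ hh F a z ∧ (1 - η) * (hh F a z * (N / (F.natDegree * Real.log N))) ≤ P F a N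

lemma P_le' (F : ℤ[X]) (a N : ℕ) : (P F a N : ℝ) ≤ N := by
  unfold P
  have := card_filter_le (Icc 1 N) (fun n : ℕ => Nat.Prime (F.eval (n : ℤ) + a).toNat)
  rw [Nat.card_Icc, Nat.add_sub_cancel] at this
  exact_mod_cast this

open Classical in
theorem core (F : ℤ[X]) (hd2 : 2 ≤ F.natDegree) (hd4 : F.natDegree ≤ 4)
    (hFM : S_FM F) (hUP : S_UP F) (hSQ : S_SQ F) (hAV : S_AV F) (η : ℝ) (hη : 0 < η) (hη1 : η ≤ 1 / 2) :
    ∃ (E : ℕ) (c : ℝ), 0 < c ∧ ∀ ε : ℝ, 0 < ε → ∃ N0 : ℕ, ∀ N : ℕ, N0 ≤ N → ∀ A : ℕ,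
      (N : ℝ) ^ (3 / 4 * (F.natDegree : ℝ) - 1 + ε) ≤ A → (A : ℝ) ≤ (N : ℝ) ^ (F.natDegree - 1) →
      c * A ≤ (#((Icc 1 A).filter (fun a => GoodB F η c E N a)) : ℝ) := by
  have hF0 : F ≠ 0 := by
    intro h
    rw [h, Polynomial.natDegree_zero] at hd2
    omega
  have hl0 : F.leadingCoeff ≠ 0 := Polynomial.leadingCoeff_ne_zero.2 hF0
  have hdR2 : (2 : ℝ) ≤ F.natDegree := by exact_mod_cast hd2
  have hdR4 : (F.natDegree : ℝ) ≤ 4 := by exact_mod_cast hd4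
  obtain ⟨D, hD⟩ : ∃ D : ℝ, D = 1 / (F.natDegree : ℝ) := ⟨_, rfl⟩
  have hD0 : 0 < D := by rw [hD]; positivity
  have hD2 : D ≤ 1 / 2 := by
    rw [hD]
    exact one_div_le_one_div_of_le (by norm_num) hdR2
  obtain ⟨e, he⟩ : ∃ e : ℝ, e = 3 / 4 * (F.natDegree : ℝ) - 1 := ⟨_, rfl⟩
  have he2 : 1 / 2 ≤ e := by rw [he]; linarith
  obtain ⟨C1, hC1, κ, hκ, hκ1, NU, hUP⟩ := hUP
  obtain ⟨E1, hE1⟩ := tail_all F (by omega) 1 3
  obtain ⟨E2, hE2⟩ : ∃ E2 : ℕ, E2 = E1 + 4 := ⟨_, rfl⟩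
  obtain ⟨X1, hX1⟩ := hE1 E2 (by omega)
  obtain ⟨C3, hC3, NS, hSQ⟩ := hSQ E2
  obtain ⟨C2, hC2⟩ : ∃ C2 : ℝ, C2 = 2 * C1 / κ := ⟨_, rfl⟩
  have hC20 : 0 < C2 := by rw [hC2]; positivity
  obtain ⟨θ, hθ⟩ : ∃ θ : ℝ, θ = η * D / 16 := ⟨_, rfl⟩
  have hθ0 : 0 < θ := by rw [hθ]; positivity
  have hθ64 : θ ≤ 1 / 64 := by
    have : η * D ≤ 1 / 2 * (1 / 2) := by gcongr
    rw [hθ]
    linarith
  obtain ⟨NA, hAV⟩ := hAV E2 θ hθ0
  obtain ⟨c0, hc0, hFM⟩ := hFM θ hθ0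
  obtain ⟨c1, hc1⟩ : ∃ c1 : ℝ, c1 = θ / (2 * C2) := ⟨_, rfl⟩
  have hc10 : 0 < c1 := by rw [hc1]; positivity
  obtain ⟨b, hb⟩ : ∃ b : ℝ, b = min c0 1 := ⟨_, rfl⟩
  have hb0 : 0 < b := by rw [hb]; exact lt_min hc0 one_pos
  have hb1 : b ≤ 1 := by rw [hb]; exact min_le_right _ _
  have hbc : b ≤ c0 := by rw [hb]; exact min_le_left _ _
  obtain ⟨c2, hc2⟩ : ∃ c2 : ℝ, c2 = η ^ 2 * D ^ 2 / (4 * C2 ^ 2 * C3) := ⟨_, rfl⟩
  have hc20 : 0 < c2 := by rw [hc2]; positivity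
  refine ⟨E2 + 1, min c1 (c2 * b / 2), lt_min hc10 (by positivity), fun ε hε => ?_⟩
  obtain ⟨NF, hFM⟩ := hFM (ε / 2) (by positivity)
  -- largeness
  have hlimL : Tendsto (fun N : ℕ => Real.log (N : ℝ)) atTop atTop :=
    Real.tendsto_log_atTop.comp tendsto_natCast_atTop_atTop
  have hlimp : ∀ p : ℝ, 0 < p → Tendsto (fun N : ℕ => (N : ℝ) ^ p) atTop atTop := fun p hp =>
    (tendsto_rpow_atTop hp).comp tendsto_natCast_atTop_atTop
  obtain ⟨M1, hM1⟩ := eventually_atTop.1 (rpow_ge_log κ hκ E2 (4 ^ E2) (by positivity))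
  obtain ⟨M2, hM2⟩ := eventually_atTop.1 (rpow_ge_log (1 / 4) (by norm_num) 1 (C1 / θ) (by positivity))
  obtain ⟨M3, hM3⟩ := eventually_atTop.1 (hlimL.eventually_ge_atTop
    (4 ^ E2 + 8 / θ + 8 + 2 * F.leadingCoeff.natAbs + 32 * (F.natDegree : ℝ) ^ 2))
  obtain ⟨M4, hM4⟩ := eventually_atTop.1 ((hlimp (ε / 2) (by positivity)).eventually_ge_atTop (2 / b))
  obtain ⟨M5, hM5⟩ := eventually_atTop.1 ((hlimp (1 / 2) (by norm_num)).eventually_ge_atTop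
    ((X1 : ℝ) + NS + NA + 2))
  refine ⟨NU + NF + M1 + M2 + M3 + M4 + M5 + 10, fun N hN A0 hA01 hA02 => ?_⟩
  have g1 := hM1 N (by omega)
  have g2 := hM2 N (by omega)
  have g3 := hM3 N (by omega)
  have g4 := hM4 N (by omega)
  have g5 := hM5 N (by omega)
  rw [pow_one] at g2
  obtain ⟨L, hL⟩ : ∃ L : ℝ, L = Real.log N := ⟨_, rfl⟩
  rw [← hL] at g1 g2 g3
  have hNR : (10 : ℝ) ≤ N := by exact_mod_cast (by omega : 10 ≤ N)
  have hN0 : (0 : ℝ) < N := by linarith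
  have hN1 : (1 : ℝ) ≤ N := by linarith
  have h8θ : 0 < 8 / θ := by positivity
  have h4E : (1 : ℝ) ≤ 4 ^ E2 := one_le_pow₀ (by norm_num)
  have hlc : (0 : ℝ) ≤ (F.leadingCoeff.natAbs : ℝ) := Nat.cast_nonneg _
  have hdsq : 0 ≤ (F.natDegree : ℝ) ^ 2 := sq_nonneg _
  have hL8 : 8 ≤ L := by linarith
  have hL0 : 0 < L := by linarith
  -- `A`
  obtain ⟨A, hA⟩ : ∃ A : ℕ, A = ⌊b * A0⌋₊ := ⟨_, rfl⟩
  have hA0R : (0 : ℝ) ≤ A0 := Nat.cast_nonneg _
  have hAle : (A : ℝ) ≤ b * A0 := by rw [hA]; exact Nat.floor_le (by positivity)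
  have hA0ge : (N : ℝ) ^ (e + ε) ≤ A0 := by rw [he]; exact hA01
  have hNpos : 0 < (N : ℝ) ^ (e + ε / 2) := Real.rpow_pos_of_pos hN0 _
  have hNe1 : 1 ≤ (N : ℝ) ^ (e + ε / 2) := Real.one_le_rpow hN1 (by linarith)
  have hbA0 : 2 * (N : ℝ) ^ (e + ε / 2) ≤ b * A0 := by
    have h1 : (N : ℝ) ^ (e + ε) = (N : ℝ) ^ (e + ε / 2) * (N : ℝ) ^ (ε / 2) := by
      rw [← Real.rpow_add hN0]
      congr 1
      ring
    rw [h1] at hA0ge
    have h2 : (N : ℝ) ^ (e + ε / 2) * (2 / b) ≤ A0 := by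
      refine le_trans ?_ hA0ge
      gcongr
    calc 2 * (N : ℝ) ^ (e + ε / 2) = b * ((N : ℝ) ^ (e + ε / 2) * (2 / b)) := by field_simp
      _ ≤ _ := by gcongr
  have hAge2 : b * A0 / 2 ≤ A := by
    have h1 : b * A0 < A + 1 := by rw [hA]; exact Nat.lt_floor_add_one _
    have h2 : 2 ≤ b * A0 := by linarith
    linarith
  have hAge : (N : ℝ) ^ (e + ε / 2) ≤ A := by linarith
  have hAlec : (A : ℝ) ≤ c0 * (N : ℝ) ^ (F.natDegree - 1) := by
    refine hAle.trans ?_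
    gcongr
  have hAN : (A : ℝ) ≤ (N : ℝ) ^ (F.natDegree - 1) := by
    refine hAle.trans ?_
    calc b * A0 ≤ 1 * A0 := by gcongr
      _ = A0 := one_mul _
      _ ≤ _ := hA02
  have hAA0 : A ≤ A0 := by
    have h1 : (A : ℝ) ≤ A0 := by
      refine hAle.trans ?_
      calc b * A0 ≤ 1 * A0 := by gcongr
        _ = A0 := one_mul _
    exact_mod_cast h1
  have hAhalf : (N : ℝ) ^ (1 / 2 : ℝ) ≤ A :=
    (Real.rpow_le_rpow_of_exponent_le hN1 (by linarith)).trans hAge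
  have hAbig : (X1 : ℝ) + NS + NA + 2 ≤ A := g5.trans hAhalf
  have hAbig' : X1 + NS + NA + 2 ≤ A := by exact_mod_cast hAbig
  have hApos : (0 : ℝ) < A := by
    have : (0 : ℝ) ≤ X1 := Nat.cast_nonneg _
    have : (0 : ℝ) ≤ NS := Nat.cast_nonneg _
    have : (0 : ℝ) ≤ NA := Nat.cast_nonneg _
    linarith
  obtain ⟨LA, hLA⟩ : ∃ LA : ℝ, LA = Real.log A := ⟨_, rfl⟩
  have hLA1 : L / 2 ≤ LA := by
    rw [hLA]
    have h1 := Real.log_le_log (by positivity) hAhalf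
    rw [Real.log_rpow hN0, ← hL] at h1
    linarith
  have hLA2 : LA ≤ 4 * L := by
    rw [hLA]
    have h1 := Real.log_le_log hApos hAN
    rw [Real.log_pow, ← hL] at h1
    have h2 : ((F.natDegree - 1 : ℕ) : ℝ) ≤ 4 := by exact_mod_cast (by omega : F.natDegree - 1 ≤ 4)
    exact h1.trans (mul_le_mul_of_nonneg_right h2 hL0.le)
  have hLA0 : 0 < LA := by linarith
  have hLA4 : 4 ≤ LA := by linarith
  -- `w`
  obtain ⟨w, hw⟩ : ∃ w : ℕ, w = ⌊LA ^ E2⌋₊ := ⟨_, rfl⟩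
  have hwle : (w : ℝ) ≤ LA ^ E2 := by rw [hw]; exact Nat.floor_le (by positivity)
  have hLAE : LA * LA ≤ LA ^ E2 := by
    calc LA * LA = LA ^ 2 := by ring
      _ ≤ LA ^ E2 := pow_le_pow_right₀ (by linarith) (by omega)
  have hLAsq : 4 * LA ≤ LA * LA := mul_le_mul_of_nonneg_right hLA4 hLA0.le
  have hwge : LA ≤ w := by
    have h1 : LA ^ E2 < w + 1 := by rw [hw]; exact Nat.lt_floor_add_one _
    linarith
  have hw2 : 2 ≤ w := by
    have h1 : (2 : ℝ) ≤ w := by linarith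
    exact_mod_cast h1
  have hwge2 : LA * LA / 2 ≤ w := by
    have h1 : LA ^ E2 < w + 1 := by rw [hw]; exact Nat.lt_floor_add_one _
    linarith
  have h4L : LA ^ E2 ≤ 4 ^ E2 * L ^ E2 := by
    rw [← mul_pow]
    exact pow_le_pow_left₀ hLA0.le hLA2 _
  obtain ⟨z0, hz02, hz0κ, hz010, hz0P⟩ := hUP N (by omega)
  have hwz0 : w ≤ z0 := by
    have h1 : (w : ℝ) ≤ z0 := hwle.trans (h4L.trans (g1.trans hz0κ))
    exact_mod_cast h1
  have hz03 : z0 ^ 3 ≤ A := by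
    have h1 : ((z0 ^ 3 : ℕ) : ℝ) ≤ A := by
      push_cast
      calc (z0 : ℝ) ^ 3 ≤ ((N : ℝ) ^ (1 / 10 : ℝ)) ^ 3 := by gcongr
        _ = (N : ℝ) ^ (3 / 10 : ℝ) := by
            rw [← Real.rpow_natCast, ← Real.rpow_mul hN0.le]
            norm_num
        _ ≤ (N : ℝ) ^ (1 / 2 : ℝ) := Real.rpow_le_rpow_of_exponent_le hN1 (by norm_num)
        _ ≤ A := hAhalf
    exact_mod_cast h1
  -- the exceptions
  obtain ⟨Bt, hBt1, hBt2, hBt3⟩ := hX1 A (by omega)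
  rw [← hLA, ← hw] at hBt3
  rw [← hLA] at hBt2
  have hκ0 : 4 * (1 / LA) ≤ θ := by
    have h1 : 8 / θ ≤ L := by linarith
    rw [div_le_iff₀ hθ0] at h1
    rw [mul_one_div, div_le_iff₀ hLA0]
    have h2 : θ * (L / 2) ≤ θ * LA := mul_le_mul_of_nonneg_left hLA1 hθ0.le
    linarith
  have hclose : ∀ a ∈ Icc 1 A, ((a : ℕ) : ℤ) ∉ Bt → ∀ z : ℕ, w ≤ z → z ^ 3 ≤ A →
      |hh F a z - hh F a w| ≤ θ * hh F a w := by
    intro a ha haB z hwz hz3
    rw [mem_Icc] at ha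
    have h1 := hBt3 (a : ℤ) (by rw [mem_Icc]; omega) haB z hwz hz3
    rw [pow_one] at h1
    have h2 := hh_close F (a : ℤ) w z (by omega) (by
      have h3 : (F.leadingCoeff.natAbs : ℝ) ≤ w := by linarith
      exact_mod_cast h3) hl0 hwz (1 / LA) (by
      rw [one_div, inv_mul_eq_div, le_div_iff₀ hLA0]
      have h3 : 16 * (F.natDegree : ℝ) ^ 2 ≤ LA := by linarith
      have h4 : (16 * (F.natDegree : ℝ) ^ 2) * LA ≤ LA * LA := mul_le_mul_of_nonneg_right h3 hLA0.le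
      linarith) (by
      have h3 : ((4 * F.natDegree : ℕ) : ℝ) ≤ w := by
        push_cast
        have h4 : (F.natDegree : ℝ) ≤ (F.natDegree : ℝ) ^ 2 := le_self_pow₀ (by linarith) (by norm_num)
        linarith
      exact_mod_cast h3) (by linarith) h1
    refine h2.trans ?_
    apply mul_le_mul_of_nonneg_right hκ0
    exact hh_nonneg F a w (by omega)
  obtain ⟨Ex, hEx⟩ : ∃ Ex : Finset ℕ, Ex = (Icc 1 A).filter (fun a : ℕ => ((a : ℕ) : ℤ) ∈ Bt) := ⟨_, rfl⟩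
  have hExsub : Ex ⊆ Icc 1 A := by rw [hEx]; exact filter_subset _ _
  have hExc : (#Ex : ℝ) ≤ A / LA ^ 3 := by
    refine le_trans ?_ hBt2
    have h1 : #Ex ≤ #Bt := by
      apply Finset.card_le_card_of_injOn (fun a : ℕ => (a : ℤ))
      · intro a ha
        rw [hEx] at ha
        simp only [coe_filter, Set.mem_ofPred_eq] at ha
        exact ha.2
      · intro a _ b _ hab
        exact Nat.cast_injective hab
    exact_mod_cast h1
  have hExn : ∀ a ∈ Icc 1 A, a ∉ Ex → ((a : ℕ) : ℤ) ∉ Bt := by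
    intro a ha haE hB
    apply haE
    rw [hEx, mem_filter]
    exact ⟨ha, hB⟩
  -- the function
  obtain ⟨H, hH⟩ : ∃ H : ℕ → ℝ, H = fun a => hh F (a : ℕ) w := ⟨_, rfl⟩
  have hH0 : ∀ a, 0 ≤ H a := by
    intro a
    rw [hH]
    exact hh_nonneg F a w (by omega)
  have hHa : ∀ a : ℕ, hh F (a : ℕ) w = H a := fun a => by rw [hH]
  have hSQ' := hSQ A (by omega) w hw2 (by rw [← hLA]; exact hwle)
  have hAV' := hAV A (by omega) w (by rw [← hLA]; exact hwge) (by rw [← hLA]; exact hwle)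
  simp only [hHa] at hSQ' hAV' hclose
  obtain ⟨NL, hNL⟩ : ∃ NL : ℝ, NL = (N : ℝ) / L := ⟨_, rfl⟩
  have hNL0 : 0 < NL := by rw [hNL]; positivity
  have hVz : Vz z0 ≤ 1 / (κ * L) := by
    have h1 : Vz z0 ≤ 1 / Real.log z0 := Pool.Agent.N792.V1_le z0 hz02
    refine h1.trans (one_div_le_one_div_of_le (by positivity) ?_)
    have h2 := Real.log_le_log (by positivity) hz0κ
    rw [Real.log_rpow hN0, ← hL] at h2
    exact h2
  have hVz0 : 0 < Vz z0 := Pool.Agent.H373R2.T7.Vz_pos z0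
  have hup : ∀ a ∈ Icc 1 A, a ∉ Ex → (P F a N : ℝ) ≤ C2 * NL * H a + θ * NL := by
    intro a ha haE
    have h1 := hclose a ha (hExn a ha haE) z0 hwz0 hz03
    have h2 := (abs_le.1 h1).2
    have h3 : hh F a z0 ≤ 2 * H a := by
      have h4 : θ * H a ≤ 1 * H a := mul_le_mul_of_nonneg_right (by linarith) (hH0 a)
      linarith
    have h5 := hz0P a
    have h50 : 0 ≤ hh F a z0 := hh_nonneg F a z0 (by omega)
    have h6 : C1 * N * (Vz z0 * hh F a z0) ≤ C2 * NL * H a := by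
      calc C1 * N * (Vz z0 * hh F a z0) ≤ C1 * N * (1 / (κ * L) * (2 * H a)) := by gcongr
        _ = C2 * NL * H a := by
            rw [hC2, hNL]
            field_simp
    have h7 : C1 * (N : ℝ) ^ (3 / 4 : ℝ) ≤ θ * NL := by
      have h8 : (N : ℝ) = (N : ℝ) ^ (3 / 4 : ℝ) * (N : ℝ) ^ (1 / 4 : ℝ) := by
        rw [← Real.rpow_add hN0]
        norm_num
      rw [hNL, mul_div_assoc', le_div_iff₀ hL0]
      have h9 : C1 * L ≤ θ * (N : ℝ) ^ (1 / 4 : ℝ) := by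
        rw [div_mul_eq_mul_div, div_le_iff₀ hθ0] at g2
        linarith
      calc C1 * (N : ℝ) ^ (3 / 4 : ℝ) * L = (N : ℝ) ^ (3 / 4 : ℝ) * (C1 * L) := by ring
        _ ≤ (N : ℝ) ^ (3 / 4 : ℝ) * (θ * (N : ℝ) ^ (1 / 4 : ℝ)) := by gcongr
        _ = θ * ((N : ℝ) ^ (3 / 4 : ℝ) * (N : ℝ) ^ (1 / 4 : ℝ)) := by ring
        _ = θ * N := by rw [← h8]
    linarith
  -- bad a
  have hbad : ∀ a ∈ Icc 1 A, a ∉ Ex → ¬ GoodB F η c1 (E2 + 1) N a →
      (P F a N : ℝ) ≤ (1 - η) * D * (1 + θ) * NL * H a + 2 * θ * NL := by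
    intro a ha haE hng
    unfold GoodB at hng
    push Not at hng
    obtain ⟨z, hz1, hz2, hz3⟩ := hng
    have hη2 : 0 ≤ 1 - η := by linarith
    have hHa0 := hH0 a
    have hwz : w ≤ z := by
      have h1 : (w : ℝ) ≤ z := by
        refine hwle.trans (h4L.trans (le_trans ?_ hz1))
        rw [← hL, pow_succ, mul_comm]
        apply mul_le_mul_of_nonneg_left _ (by positivity)
        linarith
      exact_mod_cast h1
    have hz3A : z ^ 3 ≤ A := by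
      have h1 : ((z ^ 3 : ℕ) : ℝ) ≤ A := by
        push_cast
        refine hz2.trans (le_trans ?_ hAge)
        apply Real.rpow_le_rpow_of_exponent_le hN1
        rw [he]
        linarith
      exact_mod_cast h1
    have h1 := hclose a ha (hExn a ha haE) z hwz hz3A
    rw [abs_le] at h1
    rcases lt_or_ge (hh F (a : ℕ) z) c1 with hc | hc
    · have h2 : H a ≤ 2 * c1 := by
        have h4 : θ * H a ≤ 1 / 2 * H a := mul_le_mul_of_nonneg_right (by linarith) (hH0 a)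
        linarith
      have h3 := hup a ha haE
      have h4 : C2 * NL * H a ≤ C2 * NL * (2 * c1) := by gcongr
      have h5 : C2 * NL * (2 * c1) = θ * NL := by
        rw [hc1]
        field_simp
      have h6 : 0 ≤ (1 - η) * D * (1 + θ) * NL * H a := by positivity
      linarith
    · have h2 := hz3 hc
      refine h2.le.trans ?_
      have h3 : hh F (a : ℕ) z ≤ (1 + θ) * H a := by linarith
      have h4 : (N : ℝ) / (F.natDegree * Real.log N) = D * NL := by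
        rw [hD, hNL, ← hL]
        field_simp
      rw [h4]
      have h5 : 0 ≤ 2 * θ * NL := by positivity
      calc (1 - η) * (hh F (a : ℕ) z * (D * NL)) ≤ (1 - η) * (((1 + θ) * H a) * (D * NL)) := by gcongr
        _ = (1 - η) * D * (1 + θ) * NL * H a := by ring
        _ ≤ _ := by linarith
  -- the sets
  obtain ⟨G, hG⟩ : ∃ G : Finset ℕ, G = (Icc 1 A).filter (fun a => GoodB F η c1 (E2 + 1) N a) := ⟨_, rfl⟩
  have hExP : ∑ a ∈ Ex, (P F a N : ℝ) ≤ θ * (A * NL) := by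
    calc ∑ a ∈ Ex, (P F a N : ℝ) ≤ ∑ _a ∈ Ex, (N : ℝ) := sum_le_sum fun a _ => P_le' F a N
      _ = #Ex * N := by rw [sum_const, nsmul_eq_mul]
      _ ≤ (A / LA ^ 3) * N := by gcongr
      _ ≤ (A / (L / 2) ^ 3) * N := by gcongr
      _ = (A * NL) * (8 / L ^ 2) := by
          rw [hNL]
          field_simp
          ring
      _ ≤ (A * NL) * θ := by
          apply mul_le_mul_of_nonneg_left _ (by positivity)
          rw [div_le_iff₀ (by positivity)]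
          have h2 : 8 / θ ≤ L ^ 2 := by
            have : L ≤ L ^ 2 := le_self_pow₀ (by linarith) (by norm_num)
            linarith
          rw [div_le_iff₀ hθ0] at h2
          linarith
      _ = _ := by ring
  have hFMN := hFM N (by omega) A (by
    refine le_trans (le_of_eq ?_) hAge
    rw [he]) hAlec
  have e4 : (A : ℝ) * N / (F.natDegree * Real.log N) = D * (A * NL) := by
    rw [hNL, ← hL, hD]
    field_simp
  rw [e4] at hFMN
  have hGs : G ⊆ Icc 1 A := by rw [hG]; exact filter_subset _ _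
  have hfin : η ^ 2 * D ^ 2 / (4 * C2 ^ 2 * C3) * A ≤ (#G : ℝ) := by
    refine count_good A (fun a => (P F a N : ℝ)) H Ex G hη hη1 hD0 hD2 hθ hC20 (by linarith) hNL0 hApos hH0 hExsub hGs hup
      ?_ hExP hSQ' hAV' hFMN
    intro a ha haE haG
    refine hbad a ha haE (fun hg => haG ?_)
    rw [hG, mem_filter]
    exact ⟨ha, hg⟩
  rw [← hc2] at hfin
  have hGsub : (#G : ℝ) ≤ (#((Icc 1 A0).filter (fun a => GoodB F η (min c1 (c2 * b / 2)) (E2 + 1) N a)) : ℝ) := by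
    have : G ⊆ (Icc 1 A0).filter (fun a => GoodB F η (min c1 (c2 * b / 2)) (E2 + 1) N a) := by
      intro a ha
      rw [hG, mem_filter, mem_Icc] at ha
      rw [mem_filter, mem_Icc]
      refine ⟨⟨ha.1.1, ha.1.2.trans hAA0⟩, ?_⟩
      intro z hz1 hz2
      obtain ⟨h1, h2⟩ := ha.2 z hz1 hz2
      exact ⟨(min_le_left _ _).trans h1, h2⟩
    exact_mod_cast card_le_card this
  refine le_trans ?_ (hfin.trans hGsub)
  calc min c1 (c2 * b / 2) * A0 ≤ (c2 * b / 2) * A0 := by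
        apply mul_le_mul_of_nonneg_right (min_le_right _ _) hA0R
    _ = c2 * (b * A0 / 2) := by ring
    _ ≤ c2 * A := by gcongr

end Run7.h462.BPD
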